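import Pool.Agent.H222.KW.Theta

/-!
The convex body of constant width.
-/

open MeasureTheory Set Metric Filter
open scoped ENNReal NNReal Topology ContDiff

namespace Pool.Agent.H222.KW

variable {d : ℕ}

/-- the gradient -/
noncomputable def grd (Θ : V d → ℝ) (y : V d) : V d :=
  ∑ i, (fderiv ℝ Θ y (EuclideanSpace.single i 1)) • EuclideanSpace.single i (1 : ℝ)

theorem inner_grd (Θ : V d → ℝ) (y v : V d) : inner ℝ (grd Θ y) v = fderiv ℝ Θ y v := by
  have h : v = ∑ j, v j • (EuclideanSpace.single j (1 : ℝ)) := by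
    ext i
    simp [Finset.sum_apply, Pi.single_apply]
  conv_rhs => rw [h, map_sum]
  rw [grd, sum_inner]
  refine Finset.sum_congr rfl fun i _ => ?_
  rw [inner_smul_left, map_smul, EuclideanSpace.inner_single_left]
  simp [mul_comm]

theorem grd_smooth {Θ : V d → ℝ} (h : ContDiff ℝ ∞ Θ) : ContDiff ℝ ∞ (grd Θ) := by
  unfold grd
  refine ContDiff.sum fun i _ => ?_
  have h1 : ContDiff ℝ ∞ fun y => fderiv ℝ Θ y (EuclideanSpace.single i (1 : ℝ)) :=
    (h.fderiv_right (m := ∞) le_rfl).clm_apply contDiff_const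
  exact h1.smul contDiff_const

theorem grd_eq {Θ : V d → ℝ} {g A : V d} (h : ∀ᶠ y in 𝓝 g, Θ y = inner ℝ A y) :
    grd Θ g = A := by
  have h1 : fderiv ℝ Θ g = innerSL ℝ A := by
    have h2 : Θ =ᶠ[𝓝 g] fun y => innerSL ℝ A y := h
    rw [h2.fderiv_eq]
    exact (innerSL ℝ A).fderiv
  refine ext_inner_right ℝ fun v => ?_
  rw [inner_grd, h1]
  rfl

theorem fderiv_comp_neg_aux (Θ : V d → ℝ) (y : V d) :
    fderiv ℝ (fun x => Θ (-x)) y = -fderiv ℝ Θ (-y) := by
  have h1 := ContinuousLinearEquiv.comp_right_fderiv (ContinuousLinearEquiv.neg ℝ (M := V d))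
    (f := Θ) (x := y)
  have h2 : (Θ ∘ (ContinuousLinearEquiv.neg ℝ (M := V d))) = fun x => Θ (-x) := rfl
  rw [h2] at h1
  rw [h1]
  ext v
  simp

theorem grd_even {Θ : V d → ℝ} (hodd : ∀ x, Θ (-x) = -Θ x) (y : V d) :
    grd Θ (-y) = grd Θ y := by
  refine ext_inner_right ℝ fun v => ?_
  rw [inner_grd, inner_grd]
  have h1 : (fun x => Θ (-x)) = fun x => -Θ x := funext hodd
  have h2 : fderiv ℝ (fun x => Θ (-x)) y = -fderiv ℝ Θ (-y) := fderiv_comp_neg_aux Θ y
  have h3 : fderiv ℝ (fun x => -Θ x) y = -fderiv ℝ Θ y := fderiv_fun_neg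
  rw [h1, h3] at h2
  have h4 := congrArg (fun L : V d →L[ℝ] ℝ => L v) h2
  simp only [neg_apply, neg_inj] at h4
  exact h4.symm

theorem grd_smul {Θ : V d → ℝ} (h : ContDiff ℝ ∞ Θ) (c : ℝ) (y : V d) :
    grd (fun x => c * Θ x) y = c • grd Θ y := by
  refine ext_inner_right ℝ fun v => ?_
  rw [inner_grd, inner_smul_left, inner_grd]
  have h1 : fderiv ℝ (fun x => c * Θ x) y = c • fderiv ℝ Θ y :=
    fderiv_const_mul ((h.differentiable (by simp)) y) c
  rw [h1]; simp

/-- the even field of the midpoints -/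
noncomputable def mid (Θ : V d → ℝ) (y : V d) : V d :=
  Θ y • y + grd Θ y - (inner ℝ (grd Θ y) y : ℝ) • y

theorem mid_smooth {Θ : V d → ℝ} (h : ContDiff ℝ ∞ Θ) : ContDiff ℝ ∞ (mid Θ) := by
  unfold mid
  have h1 := grd_smooth h
  exact ((h.smul contDiff_id).add h1).sub ((h1.inner ℝ contDiff_id).smul contDiff_id)

theorem mid_even {Θ : V d → ℝ} (hodd : ∀ x, Θ (-x) = -Θ x) (y : V d) :
    mid Θ (-y) = mid Θ y := by
  unfold mid
  rw [grd_even hodd, hodd, inner_neg_right]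
  module

theorem mid_eq {Θ : V d → ℝ} {g A : V d} (h : ∀ᶠ y in 𝓝 g, Θ y = inner ℝ A y) :
    mid Θ g = A := by
  unfold mid
  rw [grd_eq h, h.self_of_nhds]
  abel

theorem mid_compact {Θ : V d → ℝ} (hc : HasCompactSupport Θ) : HasCompactSupport (mid Θ) := by
  have h1 : HasCompactSupport (fderiv ℝ Θ) := hc.fderiv (𝕜 := ℝ)
  refine HasCompactSupport.intro (K := tsupport Θ ∪ tsupport (fderiv ℝ Θ))
    (hc.isCompact.union h1.isCompact) fun x hx => ?_
  rw [mem_union, not_or] at hx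
  have h2 : Θ x = 0 := image_eq_zero_of_notMem_tsupport hx.1
  have h3 : fderiv ℝ Θ x = 0 := image_eq_zero_of_notMem_tsupport hx.2
  have h4 : grd Θ x = 0 := by
    unfold grd
    rw [h3]; simp
  unfold mid
  rw [h2, h4]; simp

/-- bounds for the function and its gradient -/
theorem theta_bounds {Θ : V d → ℝ} (h : ContDiff ℝ ∞ Θ) (hc : HasCompactSupport Θ) :
    ∃ M : ℝ, 1 ≤ M ∧ (∀ x, |Θ x| ≤ M) ∧ (∀ x, ‖fderiv ℝ Θ x‖ ≤ M) ∧
      ∀ x y, |Θ y - Θ x - fderiv ℝ Θ x (y - x)| ≤ M * ‖y - x‖ ^ 2 := by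
  obtain ⟨B0, hB0⟩ := h.continuous.bounded_above_of_compact_support hc
  have h1c : HasCompactSupport (fderiv ℝ Θ) := hc.fderiv (𝕜 := ℝ)
  have h1s : ContDiff ℝ ∞ (fderiv ℝ Θ) := h.fderiv_right (m := ∞) le_rfl
  obtain ⟨B1, hB1⟩ := h1s.continuous.bounded_above_of_compact_support h1c
  obtain ⟨C, hC⟩ := ContDiff.lipschitzWith_of_hasCompactSupport h1c h1s (by simp)
  set M : ℝ := max 1 (max B0 (max B1 C)) with hM
  have hM0 : B0 ≤ M := (le_max_left _ _).trans (le_max_right _ _)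
  have hM1 : B1 ≤ M := ((le_max_left _ _).trans (le_max_right _ _)).trans (le_max_right _ _)
  have hM2 : (C : ℝ) ≤ M := ((le_max_right _ _).trans (le_max_right _ _)).trans (le_max_right _ _)
  refine ⟨M, le_max_left _ _, fun x => ?_, fun x => (hB1 x).trans hM1, fun x y => ?_⟩
  · exact (hB0 x).trans hM0
  · have hdiff : Differentiable ℝ Θ := h.differentiable (by simp)
    have hconv : Convex ℝ (closedBall x ‖y - x‖) := convex_closedBall x _
    have hb : ∀ z ∈ closedBall x ‖y - x‖, ‖fderiv ℝ Θ z - fderiv ℝ Θ x‖ ≤ M * ‖y - x‖ := by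
      intro z hz
      have h2 := hC.dist_le_mul z x
      rw [dist_eq_norm] at h2
      refine h2.trans ?_
      rw [mem_closedBall] at hz
      gcongr
    have h3 := hconv.norm_image_sub_le_of_norm_fderiv_le' (𝕜 := ℝ) (f := Θ)
      (φ := fderiv ℝ Θ x) (C := M * ‖y - x‖) (fun z _ => hdiff z) hb
      (mem_closedBall_self (norm_nonneg _)) (y := y) (by rw [mem_closedBall, dist_eq_norm])
    rw [Real.norm_eq_abs] at h3
    refine h3.trans (le_of_eq ?_)
    ring

theorem body_exists {Θ : V d → ℝ} (hs : ContDiff ℝ ∞ Θ) (hc : HasCompactSupport Θ)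
    (hodd : ∀ x, Θ (-x) = -Θ x) (m : ℕ) {ε : ℝ} (hε : 0 < ε) :
    ∃ η : ℝ, 0 < η ∧ η ≤ 1 ∧ ∃ (K : Set (V d)) (P : V d → V d), IsCompact K ∧ Convex ℝ K ∧
      ContDiff ℝ ∞ P ∧
      (∀ k ≤ m, ∀ x, ‖iteratedFDeriv ℝ k (fun y => P y - (1 / 2 : ℝ) • y) x‖ ≤ ε) ∧
      (∀ e, ‖e‖ = 1 → P e ∈ K ∧ (∀ y ∈ K, y ≠ P e → inner ℝ y e < inner ℝ (P e) e) ∧
        P e - P (-e) = e) ∧
      ∀ g, ‖g‖ = 1 → ∀ A : V d, (∀ᶠ y in 𝓝 g, Θ y = inner ℝ A y) →
        (1 / 2 : ℝ) • (P g + P (-g)) = η • A := by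
  obtain ⟨M, hM1, hMΘ, hMg, hMt⟩ := theta_bounds hs hc
  obtain ⟨B, hB1, hB⟩ := bdd_derivs (mid_smooth hs) (mid_compact hc) m
  have hM0 : 0 < M := by linarith
  have hB0 : 0 < B := by linarith
  set η : ℝ := min (1 / (16 * M)) (ε / B) with hη
  have hη0 : 0 < η := lt_min (by positivity) (by positivity)
  have hηM : η * M ≤ 1 / 16 := by
    calc η * M ≤ 1 / (16 * M) * M := by gcongr; exact min_le_left _ _
      _ = 1 / 16 := by field_simp
  have hηB : η * B ≤ ε := by
    calc η * B ≤ ε / B * B := by gcongr; exact min_le_right _ _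
      _ = ε := div_mul_cancel₀ _ hB0.ne'
  have hη1 : η ≤ 1 := by nlinarith
  set P : V d → V d := fun y => (1 / 2 : ℝ) • y + η • mid Θ y with hP
  set K : Set (V d) := {y | ∀ u : V d, ‖u‖ = 1 → inner ℝ y u ≤ 1 / 2 + η * Θ u} with hK
  have hKclosed : IsClosed K := by
    have : K = ⋂ (u : V d) (_ : ‖u‖ = 1), {y | inner ℝ y u ≤ 1 / 2 + η * Θ u} := by
      ext y; simp [hK]
    rw [this]
    refine isClosed_iInter fun u => isClosed_iInter fun _ => ?_
    exact isClosed_le (by fun_prop) continuous_const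
  have hKbdd : K ⊆ closedBall 0 1 := by
    intro y hy
    rw [mem_closedBall, dist_zero_right]
    rcases eq_or_ne y 0 with rfl | hy0
    · simp
    · have h1 := hy (‖y‖⁻¹ • y) (by
        rw [norm_smul, norm_inv, norm_norm, inv_mul_cancel₀ (norm_ne_zero_iff.2 hy0)])
      rw [inner_smul_right, real_inner_self_eq_norm_sq] at h1
      have h2 : ‖y‖⁻¹ * ‖y‖ ^ 2 = ‖y‖ := by
        have := norm_ne_zero_iff.2 hy0
        field_simp
      rw [h2] at h1
      have h3 := (abs_le.1 (hMΘ (‖y‖⁻¹ • y))).2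
      nlinarith
  have hKcomp : IsCompact K := (isCompact_closedBall (0 : V d) 1).of_isClosed_subset hKclosed hKbdd
  have hKconv : Convex ℝ K := by
    intro x hx y hy a b ha hb hab u hu
    rw [inner_add_left, inner_smul_left, inner_smul_left]
    have h1 := hx u hu
    have h2 := hy u hu
    simp only [RCLike.conj_to_real]
    calc a * inner ℝ x u + b * inner ℝ y u ≤ a * (1 / 2 + η * Θ u) + b * (1 / 2 + η * Θ u) := by
          gcongr
      _ = 1 / 2 + η * Θ u := by rw [← add_mul, hab, one_mul]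
  -- the support function along `P e`
  have hPu : ∀ e u : V d, ‖e‖ = 1 → ‖u‖ = 1 →
      inner ℝ (P e) u = inner ℝ e u * (1 / 2 + η * Θ e) + η * (fderiv ℝ Θ e (u - e)) +
        η * (fderiv ℝ Θ e e) * (1 - inner ℝ e u) := by
    intro e u he hu
    rw [hP]
    simp only [mid]
    rw [inner_add_left, inner_smul_left, inner_smul_left, inner_sub_left, inner_add_left,
      inner_smul_left, inner_smul_left, inner_grd, inner_grd, map_sub]
    simp only [RCLike.conj_to_real]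
    ring
  have hdist : ∀ e u : V d, ‖e‖ = 1 → ‖u‖ = 1 → ‖u - e‖ ^ 2 = 2 * (1 - inner ℝ e u) := by
    intro e u he hu
    have := inner_unit he hu
    rw [norm_sub_rev] at this
    linarith
  have hge : ∀ e : V d, ‖e‖ = 1 → |fderiv ℝ Θ e e| ≤ M := by
    intro e he
    have := (fderiv ℝ Θ e).le_opNorm e
    rw [he, mul_one] at this
    exact this.trans (hMg e)
  have hle1 : ∀ e u : V d, ‖e‖ = 1 → ‖u‖ = 1 → (inner ℝ e u : ℝ) ≤ 1 := by
    intro e u he hu
    have := real_inner_le_norm e u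
    rwa [he, hu, one_mul] at this
  -- two-sided bound
  have hkey : ∀ e u : V d, ‖e‖ = 1 → ‖u‖ = 1 →
      |1 / 2 + η * Θ u - inner ℝ (P e) u - (1 - inner ℝ e u) / 2| ≤
        1 / 4 * (1 - inner ℝ e u) := by
    intro e u he hu
    have hs0 : 0 ≤ 1 - (inner ℝ e u : ℝ) := by linarith [hle1 e u he hu]
    have h1 : 1 / 2 + η * Θ u - inner ℝ (P e) u - (1 - inner ℝ e u) / 2 =
        η * ((Θ u - Θ e - fderiv ℝ Θ e (u - e)) + (Θ e - fderiv ℝ Θ e e) * (1 - inner ℝ e u)) := by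
      rw [hPu e u he hu]; ring
    rw [h1, abs_mul, abs_of_pos hη0]
    have h2 := hMt e u
    rw [hdist e u he hu] at h2
    have h3 : |(Θ e - fderiv ℝ Θ e e) * (1 - inner ℝ e u)| ≤ (M + M) * (1 - inner ℝ e u) := by
      rw [abs_mul, abs_of_nonneg hs0]
      gcongr
      exact (abs_sub _ _).trans (add_le_add (hMΘ e) (hge e he))
    calc η * |(Θ u - Θ e - fderiv ℝ Θ e (u - e)) + (Θ e - fderiv ℝ Θ e e) * (1 - inner ℝ e u)|
        ≤ η * (M * (2 * (1 - inner ℝ e u)) + (M + M) * (1 - inner ℝ e u)) := by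
          gcongr
          exact (abs_add_le _ _).trans (add_le_add h2 h3)
      _ = 4 * (η * M) * (1 - inner ℝ e u) := by ring
      _ ≤ 4 * (1 / 16) * (1 - inner ℝ e u) := by gcongr
      _ = 1 / 4 * (1 - inner ℝ e u) := by ring
  have hPself : ∀ e : V d, ‖e‖ = 1 → inner ℝ (P e) e = 1 / 2 + η * Θ e := by
    intro e he
    rw [hPu e e he he, real_inner_self_eq_norm_sq, he]
    simp
  refine ⟨η, hη0, hη1, K, P, hKcomp, hKconv, ?_, ?_, ?_, ?_⟩
  · have h1 : ContDiff ℝ ∞ fun y : V d => (1 / 2 : ℝ) • y := contDiff_id.const_smul (1 / 2 : ℝ)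
    have h2 : ContDiff ℝ ∞ fun y : V d => η • mid Θ y := (mid_smooth hs).const_smul η
    exact h1.add h2
  · intro k hk x
    have h1 : (fun y => P y - (1 / 2 : ℝ) • y) = η • mid Θ := by
      funext y
      simp [hP]
    rw [h1, iteratedFDeriv_const_smul_apply
      (((mid_smooth hs).of_le (by exact_mod_cast le_top)).contDiffAt), norm_smul,
      Real.norm_of_nonneg hη0.le]
    exact (mul_le_mul_of_nonneg_left (hB k hk x) hη0.le).trans hηB
  · intro e he
    refine ⟨?_, ?_, ?_⟩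
    · intro u hu
      have h1 := (abs_le.1 (hkey e u he hu)).1
      have h2 := hle1 e u he hu
      linarith
    · intro y hy hne
      by_contra hcon
      push Not at hcon
      have hye : inner ℝ y e = inner ℝ (P e) e := le_antisymm (by rw [hPself e he]; exact hy e he)
        hcon
      set v := y - P e with hv
      have hv0 : v ≠ 0 := sub_ne_zero.2 hne
      have hve : inner ℝ v e = 0 := by rw [hv, inner_sub_left, hye, sub_self]
      have hvn : 0 < ‖v‖ := norm_pos_iff.2 hv0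
      set s : ℝ := ‖e + v‖ with hsd
      have hs2 : s ^ 2 = 1 + ‖v‖ ^ 2 := by
        rw [hsd, norm_add_sq_real, real_inner_comm, hve, he]; ring
      have hs1 : 1 ≤ s := by
        have : (1 : ℝ) ^ 2 ≤ s ^ 2 := by rw [hs2]; nlinarith
        exact le_of_sq_le_sq this (norm_nonneg _)
      have hs0 : 0 < s := by linarith
      set u : V d := s⁻¹ • (e + v) with hu
      have hun : ‖u‖ = 1 := by
        rw [hu, norm_smul, norm_inv, Real.norm_of_nonneg hs0.le, ← hsd, inv_mul_cancel₀ hs0.ne']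
      have h1 := hy u hun
      have h2 := (abs_le.1 (hkey e u he hun)).2
      have h3 : inner ℝ y u = inner ℝ (P e) u + inner ℝ v u := by
        rw [← inner_add_left, hv, add_sub_cancel]
      have h4 : inner ℝ v u = s⁻¹ * ‖v‖ ^ 2 := by
        rw [hu, inner_smul_right, inner_add_right, hve, real_inner_self_eq_norm_sq, zero_add]
      have h5 : inner ℝ e u = s⁻¹ := by
        rw [hu, inner_smul_right, inner_add_right, real_inner_comm v e, hve,
          real_inner_self_eq_norm_sq, he]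
        simp
      rw [h3, h4] at h1
      rw [h5] at h2
      have h6 : s⁻¹ * ‖v‖ ^ 2 ≤ 3 / 4 * (1 - s⁻¹) := by linarith
      have h7 : ‖v‖ ^ 2 = s ^ 2 - 1 := by linarith
      have h8 : s⁻¹ * (s ^ 2 - 1) = s - s⁻¹ := by field_simp
      rw [h7, h8] at h6
      have h9 : s⁻¹ ≤ 1 := inv_le_one_of_one_le₀ hs1
      have h10 : 1 < s := by
        have : (1 : ℝ) ^ 2 < s ^ 2 := by rw [hs2]; nlinarith
        exact lt_of_pow_lt_pow_left₀ 2 hs0.le this
      nlinarith
    · show ((1 / 2 : ℝ) • e + η • mid Θ e) - ((1 / 2 : ℝ) • (-e) + η • mid Θ (-e)) = e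
      rw [mid_even hodd]
      module
  · intro g _ A hA
    show (1 / 2 : ℝ) • (((1 / 2 : ℝ) • g + η • mid Θ g) +
      ((1 / 2 : ℝ) • (-g) + η • mid Θ (-g))) = η • A
    rw [mid_even hodd, mid_eq hA]
    module

end Pool.Agent.H222.KW
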