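import Pool.Agent.H222.KW.Embed

/-!
Reduction to caps, monotonicity in the exponent, and the norm form of the inequality.
-/

open MeasureTheory Set Metric Filter
open scoped ENNReal NNReal Topology

namespace Pool.Agent.H222.KW

variable {d : ℕ} {ι : Type} [Fintype ι]

theorem mult_le_card (δ : ℝ) (a e : ι → V d) (x : V d) :
    mult δ a e x ≤ (Fintype.card ι : ℝ≥0∞) := by
  unfold mult
  calc ∑ i, (tube δ (a i) (e i)).indicator (fun _ => (1 : ℝ≥0∞)) x
      ≤ ∑ _i : ι, (1 : ℝ≥0∞) := Finset.sum_le_sum fun i _ => indicator_le_self' (by simp) x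
    _ = _ := by simp

theorem Nq_empty [IsEmpty ι] {q : ℝ} (hq : 0 < q) (δ : ℝ) (a e : ι → V d) : Nq q δ a e = 0 := by
  unfold Nq mult
  simp [ENNReal.zero_rpow_of_pos hq]

theorem PB_mono_K {A : Set (V d × V d)} {q : ℝ} {K K' : ℝ≥0∞} (hK : K ≤ K') (h : PB A q K) :
    PB A q K' := fun δ h0 h1 ι _ a e he hs hA => (h δ h0 h1 ι a e he hs hA).trans (by gcongr)

theorem PB_anti {A B : Set (V d × V d)} (hAB : A ⊆ B) {q : ℝ} {K : ℝ≥0∞} (h : PB B q K) :
    PB A q K := fun δ h0 h1 ι _ a e he hs hA => h δ h0 h1 ι a e he hs fun i => hAB (hA i)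

theorem PB_mono_q {A : Set (V d × V d)} {q q' : ℝ} (hq : 1 ≤ q) (hqq : q ≤ q') {K : ℝ≥0∞}
    (h : PB A q K) : PB A q' K := by
  intro δ h0 h1 ι _ a e he hs hA
  have hq0 : 0 < q := by linarith
  rcases isEmpty_or_nonempty ι with hemp | hne
  · rw [Nq_empty (hq0.trans_le hqq)]; exact bot_le
  have hm0 : (Fintype.card ι : ℝ≥0∞) ≠ 0 := by simp
  calc Nq q' δ a e = ∫⁻ x, (mult δ a e x) ^ q' := rfl
    _ ≤ ∫⁻ x, (Fintype.card ι : ℝ≥0∞) ^ (q' - q) * (mult δ a e x) ^ q := by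
        refine lintegral_mono fun x => ?_
        have h3 : (mult δ a e x) ^ q' = (mult δ a e x) ^ (q' - q) * (mult δ a e x) ^ q := by
          rw [← ENNReal.rpow_add_of_nonneg _ _ (by linarith) hq0.le, sub_add_cancel]
        rw [h3]
        exact mul_le_mul' (ENNReal.rpow_le_rpow (mult_le_card _ _ _ _) (by linarith)) le_rfl
    _ = (Fintype.card ι : ℝ≥0∞) ^ (q' - q) * Nq q δ a e := by
        rw [lintegral_const_mul _ ((mult_meas _ _ _).pow_const q)]; rfl
    _ ≤ (Fintype.card ι : ℝ≥0∞) ^ (q' - q) *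
        (K * ENNReal.ofReal δ ^ d * (Fintype.card ι : ℝ≥0∞) ^ (q - 1 / (d : ℝ))) := by
        gcongr
        exact h δ h0 h1 ι a e he hs hA
    _ = _ := by
        have : q' - 1 / (d : ℝ) = (q' - q) + (q - 1 / (d : ℝ)) := by ring
        rw [this, ENNReal.rpow_add _ _ hm0 (ENNReal.natCast_ne_top _)]; ring

theorem tube_iso (U : V d ≃ₗᵢ[ℝ] V d) (δ : ℝ) (a e x : V d) :
    U x ∈ tube δ (U a) (U e) ↔ x ∈ tube δ a e := by
  unfold tube
  show (|inner ℝ (U x - U a) (U e)| ≤ 1 / 2 ∧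
    ‖(U x - U a) - (inner ℝ (U x - U a) (U e) : ℝ) • U e‖ ≤ δ) ↔ _
  rw [← map_sub, U.inner_map_map, ← map_smul, ← map_sub, U.norm_map]
  exact Iff.rfl

theorem Nq_rot (U : V d ≃ₗᵢ[ℝ] V d) (q δ : ℝ) (a e : ι → V d) :
    Nq q δ (fun i => U (a i)) (fun i => U (e i)) = Nq q δ a e := by
  have h1 : ∀ x, mult δ (fun i => U (a i)) (fun i => U (e i)) (U x) = mult δ a e x := by
    intro x
    unfold mult
    refine Finset.sum_congr rfl fun i _ => ?_
    by_cases hx : x ∈ tube δ (a i) (e i)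
    · rw [indicator_of_mem hx, indicator_of_mem ((tube_iso U δ _ _ x).2 hx)]
    · rw [indicator_of_notMem hx, indicator_of_notMem fun h => hx ((tube_iso U δ _ _ x).1 h)]
  unfold Nq
  rw [← U.measurePreserving.lintegral_comp ((mult_meas _ _ _).pow_const q)]
  refine lintegral_congr fun x => ?_
  rw [h1]

theorem beta_nonneg (hd : 1 ≤ d) {q : ℝ} (hq : 1 ≤ q) : 0 ≤ q - 1 / (d : ℝ) := by
  have hd' : (1 : ℝ) ≤ d := by exact_mod_cast hd
  have : 1 / (d : ℝ) ≤ 1 := by
    rw [div_le_one (by linarith)]; exact hd'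
  linarith

/-- directions in the cap around the first basis vector -/
def Cap (d : ℕ) : Set (V d × V d) := {z | ‖z.2 - e0 d‖ ≤ 1 / 8}

theorem cap_to_all (hd : 1 ≤ d) :
    ∃ L : ℕ, 1 ≤ L ∧ ∀ q : ℝ, 1 ≤ q → ∀ (K : ℝ≥0∞) (δ : ℝ), PBat (Cap d) q K δ →
      PBat (univ : Set (V d × V d)) q ((L : ℝ≥0∞) ^ q * K) δ := by
  classical
  obtain ⟨F, hF1, hF2⟩ := (isCompact_sphere (0 : V d) 1).elim_nhds_subcover
    (fun c => ball c (1 / 8)) (fun c _ => ball_mem_nhds c (by norm_num))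
  have hFne : Nonempty F := by
    have h2 : e0 d ∈ sphere (0 : V d) 1 := by simp [norm_e0]
    have h3 := hF2 h2
    simp only [mem_iUnion] at h3
    obtain ⟨c, hcF, -⟩ := h3
    exact ⟨⟨c, hcF⟩⟩
  refine ⟨Fintype.card F, Fintype.card_pos, ?_⟩
  intro q hq K δ hK ι _ a e he hs _
  have hq0 : 0 < q := by linarith
  have hc : ∀ i, ∃ c : F, ‖e i - (c : V d)‖ < 1 / 8 := by
    intro i
    have h2 : e i ∈ sphere (0 : V d) 1 := by simp [he i]
    have h3 := hF2 h2
    simp only [mem_iUnion] at h3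
    obtain ⟨c, hcF, hcd⟩ := h3
    exact ⟨⟨c, hcF⟩, by simpa [dist_eq_norm] using hcd⟩
  choose c hc using hc
  have hcn : ∀ f : F, ‖(f : V d)‖ = 1 := fun f => by simpa using hF1 f f.2
  have hU : ∀ f : F, ∃ U : V d ≃ₗᵢ[ℝ] V d, U f = e0 d := fun f =>
    rot_exists (hcn f) norm_e0
  choose U hU using hU
  have hsum : ∀ x, mult δ a e x =
      ∑ f : F, mult δ (fun i : {i // c i = f} => a i) (fun i : {i // c i = f} => e i) x := by
    intro x
    unfold mult
    exact (Fintype.sum_fiberwise c _).symm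
  have hpiece : ∀ f : F, Nq q δ (fun i : {i // c i = f} => a i)
      (fun i : {i // c i = f} => e i) ≤
      K * ENNReal.ofReal δ ^ d * (Fintype.card ι : ℝ≥0∞) ^ (q - 1 / (d : ℝ)) := by
    intro f
    rw [← Nq_rot (U f)]
    refine (hK {i // c i = f} (fun i => U f (a i)) (fun i => U f (e i))
      (fun i => by rw [(U f).norm_map]; exact he i) ?_ ?_).trans ?_
    · intro i j hij
      rw [← map_sub, (U f).norm_map]
      exact hs i j fun h => hij (Subtype.ext h)
    · intro i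
      show ‖U f (e i) - e0 d‖ ≤ 1 / 8
      rw [← hU f, ← map_sub, (U f).norm_map]
      have h2 := hc i
      rw [i.2] at h2
      exact h2.le
    · gcongr
      · exact beta_nonneg hd hq
      · exact Fintype.card_subtype_le _
  calc Nq q δ a e = ∫⁻ x, (∑ f : F, mult δ (fun i : {i // c i = f} => a i)
        (fun i : {i // c i = f} => e i) x) ^ q := by
        unfold Nq
        exact lintegral_congr fun x => by rw [hsum]
    _ ≤ ∫⁻ x, (Fintype.card F : ℝ≥0∞) ^ (q - 1) * ∑ f : F, (mult δ (fun i : {i // c i = f} => a i)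
        (fun i : {i // c i = f} => e i) x) ^ q := by
        refine lintegral_mono fun x => ?_
        exact ENNReal.rpow_sum_le_const_mul_sum_rpow _ _ hq
    _ = (Fintype.card F : ℝ≥0∞) ^ (q - 1) * ∑ f : F, Nq q δ (fun i : {i // c i = f} => a i)
        (fun i : {i // c i = f} => e i) := by
        rw [lintegral_const_mul _ (Finset.measurable_fun_sum _ fun f _ =>
          (mult_meas _ _ _).pow_const q),
          lintegral_finsetSum _ fun f _ => (mult_meas _ _ _).pow_const q]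
        rfl
    _ ≤ (Fintype.card F : ℝ≥0∞) ^ (q - 1) * ∑ _f : F,
        (K * ENNReal.ofReal δ ^ d * (Fintype.card ι : ℝ≥0∞) ^ (q - 1 / (d : ℝ))) := by
        gcongr with f _
        exact hpiece f
    _ = _ := by
        have h5 : (Fintype.card F : ℝ≥0∞) ≠ 0 := by
          have : Fintype.card F ≠ 0 := Fintype.card_ne_zero
          exact_mod_cast this
        have h6 : (Fintype.card F : ℝ≥0∞) ^ q = (Fintype.card F : ℝ≥0∞) ^ (q - 1) *
            (Fintype.card F : ℝ≥0∞) := by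
          conv_rhs => rw [← ENNReal.rpow_one (Fintype.card F : ℝ≥0∞)]
          rw [← ENNReal.rpow_mul, one_mul,
            ← ENNReal.rpow_add _ _ h5 (ENNReal.natCast_ne_top _), sub_add_cancel]
        rw [Finset.sum_const, Finset.card_univ, nsmul_eq_mul, h6]
        ring

/-- norm form of the inequality, indexed by `Fin N` -/
def TB (d : ℕ) (A : Set (V d × V d)) (q C : ℝ) : Prop :=
  ∀ δ : ℝ, 0 < δ → δ < 1 → ∀ (N : ℕ) (a e : Fin N → V d), (∀ i, ‖e i‖ = 1) →
    (∀ i j, i ≠ j → δ ≤ ‖e i - e j‖) → (∀ i, (a i, e i) ∈ A) →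
    eLpNorm (fun x => ∑ i, (tube δ (a i) (e i)).indicator (fun _ => (1 : ℝ)) x)
      (ENNReal.ofReal q) volume ≤
    ENNReal.ofReal (C * δ ^ ((d : ℝ) / q) * (N : ℝ) ^ (1 - 1 / (q * (d : ℝ))))

theorem eLp_eq {q : ℝ} (hq : 0 < q) (δ : ℝ) (a e : ι → V d) :
    eLpNorm (fun x => ∑ i, (tube δ (a i) (e i)).indicator (fun _ => (1 : ℝ)) x)
      (ENNReal.ofReal q) volume = (Nq q δ a e) ^ (1 / q) := by
  rw [eLpNorm_eq_lintegral_rpow_enorm_toReal (by simpa using hq) ENNReal.ofReal_ne_top,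
    ENNReal.toReal_ofReal hq.le]
  congr 1
  unfold Nq
  refine lintegral_congr fun x => ?_
  congr 1
  unfold mult
  have h1 : ∀ i, (tube δ (a i) (e i)).indicator (fun _ => (1 : ℝ≥0∞)) x =
      ENNReal.ofReal ((tube δ (a i) (e i)).indicator (fun _ => (1 : ℝ)) x) := by
    intro i
    by_cases hx : x ∈ tube δ (a i) (e i)
    · rw [indicator_of_mem hx, indicator_of_mem hx, ENNReal.ofReal_one]
    · rw [indicator_of_notMem hx, indicator_of_notMem hx, ENNReal.ofReal_zero]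
  have h2 : ∀ i, 0 ≤ (tube δ (a i) (e i)).indicator (fun _ => (1 : ℝ)) x :=
    fun i => indicator_nonneg (fun _ _ => zero_le_one) x
  rw [Finset.sum_congr rfl fun i _ => h1 i, ← ENNReal.ofReal_sum_of_nonneg fun i _ => h2 i,
    Real.enorm_eq_ofReal (Finset.sum_nonneg fun i _ => h2 i)]

theorem rhs_pow (hd : 1 ≤ d) {q C δ m : ℝ} (hq : 1 ≤ q) (hC : 0 ≤ C) (h0 : 0 < δ) (hm : 0 ≤ m) :
    ENNReal.ofReal (C * δ ^ ((d : ℝ) / q) * m ^ (1 - 1 / (q * (d : ℝ)))) ^ q =
      ENNReal.ofReal (C ^ q) * ENNReal.ofReal δ ^ d *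
        ENNReal.ofReal m ^ (q - 1 / (d : ℝ)) := by
  have hd' : (1 : ℝ) ≤ d := by exact_mod_cast hd
  have hq0 : 0 < q := by linarith
  rw [ENNReal.ofReal_rpow_of_nonneg (by positivity) hq0.le, Real.mul_rpow (by positivity)
    (by positivity), Real.mul_rpow hC (by positivity), ← Real.rpow_mul h0.le, ← Real.rpow_mul hm,
    ENNReal.ofReal_mul (by positivity), ENNReal.ofReal_mul (by positivity)]
  have e1 : ((d : ℝ) / q) * q = d := by
    field_simp
  have e2 : (1 - 1 / (q * (d : ℝ))) * q = q - 1 / (d : ℝ) := by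
    field_simp
  rw [e1, e2, Real.rpow_natCast, ENNReal.ofReal_pow h0.le,
    ENNReal.ofReal_rpow_of_nonneg hm (beta_nonneg hd hq)]

theorem TB_to_PB (hd : 1 ≤ d) {A : Set (V d × V d)} {q C : ℝ} (hq : 1 ≤ q) (hC0 : 0 ≤ C)
    (hC : TB d A q C) : PB A q (ENNReal.ofReal (C ^ q)) := by
  have hq0 : 0 < q := by linarith
  intro δ h0 h1 ι _ a e he hs hA
  set σ := (Fintype.equivFin ι).symm with hσ
  have h2 := hC δ h0 h1 (Fintype.card ι) (fun i => a (σ i)) (fun i => e (σ i))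
    (fun i => he _) (fun i j hij => hs _ _ fun h => hij (σ.injective h)) (fun i => hA _)
  have h3 : Nq q δ (fun i => a (σ i)) (fun i => e (σ i)) = Nq q δ a e := by
    unfold Nq mult
    refine lintegral_congr fun x => ?_
    congr 1
    exact σ.sum_comp fun i => (tube δ (a i) (e i)).indicator (fun _ => (1 : ℝ≥0∞)) x
  rw [eLp_eq hq0, h3] at h2
  have h5 := ENNReal.rpow_le_rpow h2 hq0.le
  rw [← ENNReal.rpow_mul, one_div_mul_cancel hq0.ne', ENNReal.rpow_one,
    rhs_pow hd hq hC0 h0 (Nat.cast_nonneg _), ENNReal.ofReal_natCast] at h5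
  exact h5

theorem PB_to_TB (hd : 1 ≤ d) {A : Set (V d × V d)} {q C : ℝ} (hq : 1 ≤ q) (hC0 : 0 ≤ C)
    (hK : PB A q (ENNReal.ofReal (C ^ q))) : TB d A q C := by
  have hq0 : 0 < q := by linarith
  intro δ h0 h1 N a e he hs hA
  have h2 := hK δ h0 h1 (Fin N) a e he hs hA
  rw [eLp_eq hq0, one_div, ENNReal.rpow_inv_le_iff hq0,
    rhs_pow hd hq hC0 h0 (Nat.cast_nonneg _)]
  refine h2.trans (le_of_eq ?_)
  rw [ENNReal.ofReal_natCast]
  simp

end Pool.Agent.H222.KW
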