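import Pool.Agent.H222.KW.Embed

/-!
The smooth odd function that contains a sequence of families of tubes.
-/

open MeasureTheory Set Metric Filter
open scoped ENNReal NNReal Topology ContDiff

namespace Pool.Agent.H222.KW

variable {d : ℕ}

/-- a family of tubes with directions in the cap -/
structure CapFam (d : ℕ) where
  /-- scale -/
  δ : ℝ
  δ0 : 0 < δ
  δ1 : δ < 1
  /-- number of tubes -/
  N : ℕ
  /-- centres -/
  a : Fin N → V d
  /-- directions -/
  e : Fin N → V d
  he : ∀ i, ‖e i‖ = 1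
  hc : ∀ i, ‖e i - e0 d‖ ≤ 1 / 8
  hs : Sep δ e

/-- slopes of the poles -/
noncomputable def tt (j : ℕ) : ℝ := (1 / 8) * (1 / 4) ^ j

theorem tt_pos (j : ℕ) : 0 < tt j := by unfold tt; positivity

theorem tt_le (j : ℕ) : tt j ≤ 1 / 8 := by
  unfold tt
  have : ((1 : ℝ) / 4) ^ j ≤ 1 := pow_le_one₀ (by norm_num) (by norm_num)
  linarith

theorem tt_lt {j k : ℕ} (h : j < k) : tt k ≤ tt j / 4 := by
  unfold tt
  have h1 : ((1 : ℝ) / 4) ^ k ≤ (1 / 4) ^ (j + 1) :=
    pow_le_pow_of_le_one (by norm_num) (by norm_num) h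
  rw [pow_succ] at h1
  linarith

/-- the unnormalised poles -/
noncomputable def pol (d : ℕ) (j : ℕ) : V d := e0 d + tt j • EuclideanSpace.single (Fin.last d) 1

theorem pol_zero (hd : 1 ≤ d) (j : ℕ) : (pol d j) 0 = 1 := by
  have h : (0 : Fin (d + 1)) ≠ Fin.last d := by
    intro h
    have := congrArg Fin.val h
    simp at this
    omega
  simp [pol, e0, h]

theorem pol_sub (j : ℕ) : ‖pol d j - e0 d‖ = tt j := by
  rw [pol, add_sub_cancel_left, norm_smul, Real.norm_of_nonneg (tt_pos j).le]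
  simp

theorem pol_sub_pol (j k : ℕ) : ‖pol d j - pol d k‖ = |tt j - tt k| := by
  have : pol d j - pol d k = (tt j - tt k) • EuclideanSpace.single (Fin.last d) (1 : ℝ) := by
    rw [pol, pol]; module
  rw [this, norm_smul, Real.norm_eq_abs]
  simp

/-- the poles -/
noncomputable def pole (d : ℕ) (j : ℕ) : V d := nrm (pol d j)

theorem pol_ne (hd : 1 ≤ d) (j : ℕ) : pol d j ≠ 0 := fun h => by
  have := pol_zero hd j
  rw [h] at this
  simp at this

theorem pole_unit (hd : 1 ≤ d) (j : ℕ) : ‖pole d j‖ = 1 := nrm_unit (pol_ne hd j)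

theorem pole_near (hd : 1 ≤ d) (j : ℕ) : ‖pole d j - e0 d‖ ≤ 2 * tt j := by
  have h1 := nrm_lip (norm_ge_of_zero (pol_zero hd j)) (norm_e0 (d := d)).ge
  rwa [nrm_of_unit norm_e0, pol_sub] at h1

theorem nrm_pol_zero (hd : 1 ≤ d) (j : ℕ) : (pole d j) 0 = ‖pol d j‖⁻¹ := by
  simp [pole, nrm, pol_zero hd]

theorem pole_zero (hd : 1 ≤ d) (j : ℕ) : 9 / 10 ≤ (pole d j) 0 := by
  rw [nrm_pol_zero hd]
  have h1 : ‖pol d j‖ ≤ 9 / 8 := by
    have : pol d j = e0 d + (pol d j - e0 d) := by abel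
    rw [this]
    refine (norm_add_le _ _).trans ?_
    rw [norm_e0, pol_sub]
    linarith [tt_le j]
  have h2 : ‖pol d j‖ ^ 2 = 1 + tt j ^ 2 := by
    have h7 : inner ℝ (e0 d) (pol d j - e0 d) = 0 := by
      rw [real_inner_comm, inner_e0]
      have : (e0 d) 0 = 1 := by simp [e0]
      simp [pol_zero hd, this]
    have h8 := norm_add_sq_real (e0 d) (pol d j - e0 d)
    rw [h7, add_sub_cancel, norm_e0, pol_sub] at h8
    linarith
  have h3 : ‖pol d j‖ ≤ 10 / 9 := by
    have h8 : ‖pol d j‖ ^ 2 ≤ (10 / 9) ^ 2 := by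
      rw [h2]
      have : tt j ^ 2 ≤ (1 / 8) ^ 2 := by
        have := tt_le j
        have := tt_pos j
        gcongr
      linarith
    exact le_of_sq_le_sq h8 (by norm_num)
  have h9 : 1 ≤ ‖pol d j‖ := norm_ge_of_zero (pol_zero hd j)
  rw [le_inv_comm₀ (by norm_num) (by linarith)]
  linarith

theorem prj_pole (hd : 1 ≤ d) (j : ℕ) : prj (pole d j) = pol d j := by
  have hn : ‖pol d j‖ ≠ 0 := norm_ne_zero_iff.2 (pol_ne hd j)
  rw [prj, nrm_pol_zero hd, pole, nrm, smul_smul, inv_inv, mul_inv_cancel₀ hn, one_smul]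

theorem pole_sep (hd : 1 ≤ d) {j k : ℕ} (h : j < k) : tt j / 4 ≤ ‖pole d j - pole d k‖ := by
  have h1 := prj_lip (pole_unit hd k) (pole_zero hd j) (pole_zero hd k)
  rw [prj_pole hd, prj_pole hd, pol_sub_pol] at h1
  have h2 := tt_lt h
  have h3 : 3 / 4 * tt j ≤ |tt j - tt k| := by
    have := le_abs_self (tt j - tt k)
    linarith
  have := tt_pos j
  linarith

/-- contraction ratios -/
noncomputable def rr (j : ℕ) : ℝ := tt j / 100

theorem rr_pos (j : ℕ) : 0 < rr j := by have := tt_pos j; unfold rr; positivity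

theorem rr_le (j : ℕ) : rr j ≤ 1 := by have := tt_le j; unfold rr; linarith

/-- rotations to the poles -/
theorem UU_exists (hd : 1 ≤ d) (j : ℕ) : ∃ U : V d ≃ₗᵢ[ℝ] V d, U (e0 d) = pole d j :=
  rot_exists norm_e0 (pole_unit hd j)

/-- smooth compactly supported functions have bounded derivatives -/
theorem bdd_deriv {G : Type*} [NormedAddCommGroup G] [NormedSpace ℝ G] {f : V d → G}
    (hf : ContDiff ℝ ∞ f) (hc : HasCompactSupport f) (k : ℕ) :
    ∃ B : ℝ, 0 ≤ B ∧ ∀ x, ‖iteratedFDeriv ℝ k f x‖ ≤ B := by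
  obtain ⟨B, hB⟩ := (hf.continuous_iteratedFDeriv
    (m := k) (by exact_mod_cast le_top)).bounded_above_of_compact_support
    (hc.iteratedFDeriv (𝕜 := ℝ) k)
  exact ⟨B, (norm_nonneg _).trans (hB 0), hB⟩

theorem bdd_derivs {G : Type*} [NormedAddCommGroup G] [NormedSpace ℝ G] {f : V d → G}
    (hf : ContDiff ℝ ∞ f) (hc : HasCompactSupport f) (m : ℕ) :
    ∃ B : ℝ, 1 ≤ B ∧ ∀ k ≤ m, ∀ x, ‖iteratedFDeriv ℝ k f x‖ ≤ B := by
  choose B hB0 hB using bdd_deriv hf hc
  refine ⟨1 + ∑ k ∈ Finset.range (m + 1), B k, ?_, fun k hk x => ?_⟩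
  · have : 0 ≤ ∑ k ∈ Finset.range (m + 1), B k := Finset.sum_nonneg fun k _ => hB0 k
    linarith
  · have h1 : B k ≤ ∑ k ∈ Finset.range (m + 1), B k :=
      Finset.single_le_sum (fun k _ => hB0 k) (Finset.mem_range.2 (by omega))
    linarith [hB k x]

theorem smul_summable {f : ℕ → V d → ℝ} (hf : ∀ j, ContDiff ℝ ∞ (f j))
    (hc : ∀ j, HasCompactSupport (f j)) {lmax : ℝ} (hl : 0 < lmax) :
    ∃ l : ℕ → ℝ, (∀ j, 0 < l j) ∧ (∀ j, l j ≤ lmax) ∧
      ContDiff ℝ ∞ (fun x => ∑' j, l j * f j x) := by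
  choose B hB1 hB using fun j => bdd_derivs (hf j) (hc j) j
  have hBp : ∀ j, 0 < B j := fun j => by linarith [hB1 j]
  refine ⟨fun j => min lmax ((1 / 2) ^ j / B j), fun j => lt_min hl (by have := hBp j; positivity),
    fun j => min_le_left _ _, ?_⟩
  have hv : Summable fun j : ℕ => ((1 : ℝ) / 2) ^ j := summable_geometric_two
  refine contDiff_tsum_of_eventually (N := (⊤ : ℕ∞)) (v := fun _ j => (1 / 2) ^ j)
    (fun j => contDiff_const.mul (hf j)) (fun _ _ => hv) fun k _ => ?_
  rw [Nat.cofinite_eq_atTop]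
  filter_upwards [eventually_ge_atTop k] with j hj x
  have h0 : 0 ≤ min lmax ((1 / 2) ^ j / B j) := le_min hl.le (by have := hBp j; positivity)
  have h1 : (fun x => min lmax ((1 / 2) ^ j / B j) * f j x) =
      (min lmax ((1 / 2) ^ j / B j)) • f j := rfl
  rw [h1, iteratedFDeriv_const_smul_apply
    (((hf j).of_le (by exact_mod_cast le_top)).contDiffAt), norm_smul, Real.norm_of_nonneg h0]
  calc min lmax ((1 / 2) ^ j / B j) * ‖iteratedFDeriv ℝ k (f j) x‖
      ≤ ((1 / 2) ^ j / B j) * B j := by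
        have := hBp j
        gcongr
        · exact min_le_right _ _
        · exact hB j k hj x
    _ = (1 / 2) ^ j := div_mul_cancel₀ _ (hBp j).ne'

theorem theta_exists (hd : 1 ≤ d) (F : ℕ → CapFam d) {lmax : ℝ} (hl : 0 < lmax) :
    ∃ (Θ : V d → ℝ) (l : ℕ → ℝ) (U : ℕ → (V d ≃ₗᵢ[ℝ] V d)), ContDiff ℝ ∞ Θ ∧
      HasCompactSupport Θ ∧ (∀ x, Θ (-x) = -Θ x) ∧ (∀ j, 0 < l j) ∧ (∀ j, l j ≤ lmax) ∧
      ∀ j (i : Fin (F j).N) (g : V d),
        ‖g - U j (dir (rr j) ((F j).e i))‖ ≤ rr j * (F j).δ / 64 →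
        ∀ᶠ y in 𝓝 g, Θ y = l j * inner ℝ (U j (dil (rr j) ((F j).a i))) y := by
  classical
  choose U hU using UU_exists (d := d) hd
  set f : (j : ℕ) → Fin (F j).N → V d := fun j i => U j (dir (rr j) ((F j).e i)) with hf
  set A : (j : ℕ) → Fin (F j).N → V d := fun j i => U j (dil (rr j) ((F j).a i)) with hA
  have hr0 : ∀ j, 0 < rr j * (F j).δ := fun j => mul_pos (rr_pos j) (F j).δ0
  have hfp : ∀ j i, ‖f j i - pole d j‖ ≤ rr j := by
    intro j i
    rw [hf, ← hU j]
    show ‖U j (dir (rr j) ((F j).e i)) - U j (e0 d)‖ ≤ rr j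
    rw [← map_sub, (U j).norm_map]
    exact dir_near (rr_pos j).le ((F j).he i) ((F j).hc i)
  have hfs : ∀ j i i', i ≠ i' → rr j * (F j).δ / 8 ≤ ‖f j i - f j i'‖ := by
    intro j i i' hii
    have h1 := dir_sep (rr_pos j).le (rr_le j) ((F j).he i) ((F j).hc i) ((F j).he i')
      ((F j).hc i')
    have h2 : ‖f j i - f j i'‖ = ‖dir (rr j) ((F j).e i) - dir (rr j) ((F j).e i')‖ := by
      show ‖U j (dir (rr j) ((F j).e i)) - U j (dir (rr j) ((F j).e i'))‖ = _
      rw [← map_sub, (U j).norm_map]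
    rw [h2]
    refine le_trans ?_ h1
    have h3 := (F j).hs i i' hii
    have h4 := rr_pos j
    calc rr j * (F j).δ / 8 = rr j / 8 * (F j).δ := by ring
      _ ≤ rr j / 8 * ‖(F j).e i - (F j).e i'‖ := by gcongr
  -- bumps
  let χ : (j : ℕ) → (i : Fin (F j).N) → ContDiffBump (f j i) := fun j i =>
    { rIn := rr j * (F j).δ / 32
      rOut := rr j * (F j).δ / 16
      rIn_pos := by have := hr0 j; positivity
      rIn_lt_rOut := by have := hr0 j; linarith }
  have hχ1 : ∀ j i x, ‖x - f j i‖ ≤ rr j * (F j).δ / 32 → χ j i x = 1 := fun j i x hx =>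
    (χ j i).one_of_mem_closedBall (by rw [mem_closedBall, dist_eq_norm]; exact hx)
  have hχ0 : ∀ j i x, rr j * (F j).δ / 16 ≤ ‖x - f j i‖ → χ j i x = 0 := fun j i x hx =>
    (χ j i).zero_of_le_dist (by rw [dist_eq_norm]; exact hx)
  -- geometry of the supports
  have hrδ : ∀ j, rr j * (F j).δ ≤ rr j := fun j => by
    have := rr_pos j
    have := (F j).δ1
    nlinarith
  have hpole : ∀ j i x, ‖x - f j i‖ < rr j * (F j).δ / 16 → ‖x - pole d j‖ ≤ tt j / 50 := by
    intro j i x hx
    have h1 : x - pole d j = (x - f j i) + (f j i - pole d j) := by abel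
    rw [h1]
    refine (norm_add_le _ _).trans ?_
    have h2 := hfp j i
    have h3 := hrδ j
    have h4 : rr j = tt j / 100 := rfl
    have h5 := rr_pos j
    linarith
  have hdis : ∀ j i j' i' x, ‖x - f j i‖ < rr j * (F j).δ / 16 →
      ‖x - f j' i'‖ < rr j' * (F j').δ / 16 → j = j' := by
    intro j i j' i' x hx hx'
    by_contra hne
    have h1 := hpole j i x hx
    have h2 := hpole j' i' x hx'
    have h3 : ‖pole d j - pole d j'‖ ≤ tt j / 50 + tt j' / 50 := by
      have h4 : pole d j - pole d j' = (x - pole d j') - (x - pole d j) := by abel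
      rw [h4]
      refine (norm_sub_le _ _).trans ?_
      linarith
    rcases lt_or_gt_of_ne hne with h | h
    · have h5 := pole_sep hd h
      have h6 := tt_lt h
      have h7 := tt_pos j
      linarith
    · have h5 := pole_sep hd h
      have h6 := tt_lt h
      have h7 := tt_pos j'
      rw [norm_sub_rev] at h5
      linarith
  have hdis2 : ∀ j i i' x, ‖x - f j i‖ < rr j * (F j).δ / 16 →
      ‖x - f j i'‖ < rr j * (F j).δ / 16 → i = i' := by
    intro j i i' x hx hx'
    by_contra hne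
    have h1 := hfs j i i' hne
    have h2 : f j i - f j i' = (x - f j i') - (x - f j i) := by abel
    rw [h2] at h1
    have h3 := norm_sub_le (x - f j i') (x - f j i)
    linarith
  have hpos : ∀ j i x, ‖x - f j i‖ < rr j * (F j).δ / 16 → 1 / 2 ≤ x 0 ∧ ‖x‖ ≤ 2 := by
    intro j i x hx
    have h1 := hpole j i x hx
    have h2 := pole_near hd j
    have h3 : ‖x - e0 d‖ ≤ 1 / 2 := by
      have h4 : x - e0 d = (x - pole d j) + (pole d j - e0 d) := by abel
      rw [h4]
      refine (norm_add_le _ _).trans ?_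
      have := tt_le j
      linarith
    constructor
    · have h4 := (abs_apply_le (x - e0 d) 0).trans h3
      have h5 : (x - e0 d) 0 = x 0 - 1 := by
        have : (e0 d) 0 = 1 := by simp [e0]
        simp [this]
      rw [h5, abs_le] at h4
      linarith [h4.1]
    · have h4 : x = (x - e0 d) + e0 d := by abel
      rw [h4]
      refine (norm_add_le _ _).trans ?_
      rw [norm_e0]
      linarith
  -- the summands
  set T : ℕ → V d → ℝ := fun j x => ∑ i, inner ℝ (A j i) x * (χ j i x + χ j i (-x)) with hT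
  have hTs : ∀ j, ContDiff ℝ ∞ (T j) := by
    intro j
    refine ContDiff.sum fun i _ => ?_
    refine (contDiff_const.inner ℝ contDiff_id).mul ?_
    exact (χ j i).contDiff.add ((χ j i).contDiff.comp contDiff_neg)
  have hTodd : ∀ j x, T j (-x) = -T j x := by
    intro j x
    rw [hT]
    simp only [inner_neg_right, neg_neg]
    rw [← Finset.sum_neg_distrib]
    refine Finset.sum_congr rfl fun i _ => ?_
    ring
  have hT0 : ∀ j x, 2 < ‖x‖ → T j x = 0 := by
    intro j x hx
    rw [hT]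
    refine Finset.sum_eq_zero fun i _ => ?_
    have h1 : χ j i x = 0 := hχ0 j i x (by
      by_contra hcon
      push Not at hcon
      linarith [(hpos j i x hcon).2])
    have h2 : χ j i (-x) = 0 := hχ0 j i (-x) (by
      by_contra hcon
      push Not at hcon
      have := (hpos j i (-x) hcon).2
      rw [norm_neg] at this
      linarith)
    rw [h1, h2]; ring
  have hTc : ∀ j, HasCompactSupport (T j) := fun j =>
    HasCompactSupport.intro (isCompact_closedBall (0 : V d) 2) fun x hx => hT0 j x (by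
      simpa using hx)
  obtain ⟨l, hl0, hl1, hsm⟩ := smul_summable hTs hTc hl
  refine ⟨fun x => ∑' j, l j * T j x, l, U, hsm, ?_, ?_, hl0, hl1, ?_⟩
  · refine HasCompactSupport.intro (isCompact_closedBall (0 : V d) 2) fun x hx => ?_
    have hx' : 2 < ‖x‖ := by simpa using hx
    simp [hT0 _ x hx']
  · intro x
    simp only [hTodd, mul_neg]
    rw [tsum_neg]
  · intro j i g hg
    have hgf : ‖g - f j i‖ < rr j * (F j).δ / 32 := by
      have := hr0 j
      have h1 : ‖g - f j i‖ ≤ rr j * (F j).δ / 64 := hg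
      linarith
    have hopen : IsOpen {y : V d | ‖y - f j i‖ < rr j * (F j).δ / 32} :=
      isOpen_lt (by fun_prop) continuous_const
    filter_upwards [hopen.mem_nhds hgf] with y hy
    have hy' : ‖y - f j i‖ < rr j * (F j).δ / 32 := hy
    have hy2 : ‖y - f j i‖ < rr j * (F j).δ / 16 := by
      have := hr0 j
      linarith
    have hneg : ∀ j' i', χ j' i' (-y) = 0 := fun j' i' => hχ0 j' i' (-y) (by
      by_contra hcon
      push Not at hcon
      have h1 := (hpos j' i' (-y) hcon).1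
      have h2 := (hpos j i y hy2).1
      have h3 : (-y : V d) 0 = -(y 0) := rfl
      rw [h3] at h1
      linarith)
    have hother : ∀ j', j' ≠ j → T j' y = 0 := by
      intro j' hj'
      rw [hT]
      refine Finset.sum_eq_zero fun i' _ => ?_
      have h1 : χ j' i' y = 0 := hχ0 j' i' y (by
        by_contra hcon
        push Not at hcon
        exact hj' (hdis j i j' i' y hy2 hcon).symm)
      rw [h1, hneg]; ring
    have hsame : T j y = inner ℝ (A j i) y := by
      rw [hT]
      show ∑ i', inner ℝ (A j i') y * (χ j i' y + χ j i' (-y)) = _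
      rw [Finset.sum_eq_single i]
      · rw [hχ1 j i y hy'.le, hneg]; ring
      · intro i' _ hne
        have h1 : χ j i' y = 0 := hχ0 j i' y (by
          by_contra hcon
          push Not at hcon
          exact hne (hdis2 j i i' y hy2 hcon).symm)
        rw [h1, hneg]; ring
      · intro h; exact absurd (Finset.mem_univ i) h
    show ∑' j', l j' * T j' y = l j * inner ℝ (A j i) y
    rw [tsum_eq_single j (fun j' hj' => by rw [hother j' hj', mul_zero]), hsame]

end Pool.Agent.H222.KW
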