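import Pool.Agent.H222.KW.Loc
import Pool.Agent.H222.KW.Theta

/-!
Families of tubes whose centres are given by a smooth map with bounded derivatives.
-/

open MeasureTheory Set Metric Filter
open scoped ENNReal NNReal Topology ContDiff

namespace Pool.Agent.H222.KW

variable {d : ℕ}

/-- scaled bump -/
theorem scaled_deriv {χ : V d → ℝ} (hχ : ContDiff ℝ ∞ χ) {B r : ℝ} (hr : 0 ≤ r) (e v : V d)
    (j : ℕ) (hB : ∀ x, ‖iteratedFDeriv ℝ j χ x‖ ≤ B) (x : V d) :
    ‖iteratedFDeriv ℝ j (fun y => χ (r • (y - e)) • v) x‖ ≤ r ^ j * B * ‖v‖ := by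
  have h1 : ContDiff ℝ ∞ fun y => χ (r • (y - e)) := by
    refine hχ.comp ?_
    exact (contDiff_id.sub contDiff_const).const_smul r
  have h2 : iteratedFDeriv ℝ j (fun y => χ (r • (y - e))) x =
      r ^ j • iteratedFDeriv ℝ j χ (r • (x - e)) := by
    have h3 := iteratedFDeriv_comp_sub (𝕜 := ℝ) (f := fun z => χ (r • z)) j e x
    rw [h3, iteratedFDeriv_comp_const_smul r (hχ.of_le (by exact_mod_cast le_top))]
  set L : ℝ →L[ℝ] V d := (ContinuousLinearMap.id ℝ ℝ).smulRight v with hL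
  have h4 : (fun y => χ (r • (y - e)) • v) = L ∘ fun y => χ (r • (y - e)) := by
    funext y
    simp [hL]
  rw [h4, ContinuousLinearMap.iteratedFDeriv_comp_left L
    ((h1.of_le (by exact_mod_cast le_top)).contDiffAt) le_rfl]
  refine (ContinuousLinearMap.norm_compContinuousMultilinearMap_le _ _).trans ?_
  rw [h2, norm_smul, norm_pow, Real.norm_of_nonneg hr]
  have h5 : ‖L‖ ≤ ‖v‖ := by
    rw [hL, ContinuousLinearMap.norm_smulRight_apply]
    simp
  have hB0 : 0 ≤ B := (norm_nonneg _).trans (hB 0)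
  calc ‖L‖ * (r ^ j * ‖iteratedFDeriv ℝ j χ (r • (x - e))‖) ≤ ‖v‖ * (r ^ j * B) := by
        gcongr
        exact hB _
    _ = _ := by ring

theorem scaled_deriv_zero {χ : V d → ℝ} {r : ℝ} (hr : 0 < r) (e v : V d)
    (h0 : ∀ x, 2 < ‖x‖ → χ x = 0) (j : ℕ) (x : V d) (hx : 2 / r < ‖x - e‖) :
    iteratedFDeriv ℝ j (fun y => χ (r • (y - e)) • v) x = 0 := by
  have hsub : tsupport (fun y => χ (r • (y - e)) • v) ⊆ closedBall e (2 / r) := by
    refine closure_minimal ?_ isClosed_closedBall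
    intro y hy
    rw [mem_closedBall, dist_eq_norm]
    by_contra hcon
    push Not at hcon
    refine hy ?_
    have h1 : 2 < ‖r • (y - e)‖ := by
      rw [norm_smul, Real.norm_of_nonneg hr.le]
      rw [div_lt_iff₀ hr] at hcon
      linarith
    show χ (r • (y - e)) • v = 0
    rw [h0 _ h1, zero_smul]
  by_contra hne
  have h1 := hsub (support_iteratedFDeriv_subset (𝕜 := ℝ) j hne)
  rw [mem_closedBall, dist_eq_norm] at h1
  linarith

theorem ck_field (hd : 1 ≤ d) (k : ℕ) : ∃ c : ℝ, 0 < c ∧ c ≤ 1 / (6144 * d) ∧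
    ∀ δ : ℝ, 0 < δ → δ < 1 → ∀ (ι : Type) [Fintype ι] (a e : ι → V d), Sep δ e →
      (∀ i, ‖a i‖ ≤ d + 1) → ∃ Y : V d → V d, ContDiff ℝ ∞ Y ∧
        (∀ j ≤ k, ∀ x, ‖iteratedFDeriv ℝ j Y x‖ ≤ 1) ∧
        ∀ i g, ‖g - e i‖ ≤ δ / 64 → Y g = (c * δ ^ k) • a i := by
  have hd' : (1 : ℝ) ≤ d := by exact_mod_cast hd
  let χ : ContDiffBump (0 : V d) := ⟨1, 2, one_pos, one_lt_two⟩
  have hχs : ContDiff ℝ ∞ (χ : V d → ℝ) := χ.contDiff
  obtain ⟨B, hB1, hB⟩ := bdd_derivs hχs χ.hasCompactSupport k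
  have hχ0 : ∀ x : V d, 2 ≤ ‖x‖ → χ x = 0 := fun x hx =>
    χ.zero_of_le_dist (by rw [dist_zero_right]; exact hx)
  have hχ1 : ∀ x : V d, ‖x‖ ≤ 1 → χ x = 1 := fun x hx =>
    χ.one_of_mem_closedBall (by rw [mem_closedBall, dist_zero_right]; exact hx)
  set c : ℝ := 1 / (64 ^ k * B * (d + 1) * (6144 * d)) with hc
  have hB0 : 0 < B := by linarith
  have hc0 : 0 < c := by positivity
  have h64 : (1 : ℝ) ≤ 64 ^ k := one_le_pow₀ (by norm_num)
  refine ⟨c, hc0, ?_, ?_⟩
  · rw [hc]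
    apply one_div_le_one_div_of_le (by positivity)
    have : 1 ≤ 64 ^ k * B * (d + 1) := by
      have h1 : 1 ≤ 64 ^ k * B := by nlinarith
      nlinarith
    nlinarith
  intro δ h0 h1 ι _ a e hs ha
  classical
  set r : ℝ := 64 / δ with hr
  have hr0 : 0 < r := by positivity
  have hr1 : 1 ≤ r := by rw [hr, le_div_iff₀ h0]; linarith
  have h2r : 2 / r = δ / 32 := by rw [hr]; field_simp; ring
  set f : ι → V d → V d := fun i y => χ (r • (y - e i)) • ((c * δ ^ k) • a i) with hf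
  have hfs : ∀ i, ContDiff ℝ ∞ (f i) := by
    intro i
    have h3 : ContDiff ℝ ∞ fun y => χ (r • (y - e i)) :=
      hχs.comp ((contDiff_id.sub contDiff_const).const_smul r)
    exact h3.smul contDiff_const
  refine ⟨fun y => ∑ i, f i y, ContDiff.sum fun i _ => hfs i, ?_, ?_⟩
  · intro j hj x
    rw [iteratedFDeriv_fun_sum_apply fun i _ =>
      ((hfs i).of_le (by exact_mod_cast le_top)).contDiffAt]
    have hbd : ∀ i, ‖iteratedFDeriv ℝ j (f i) x‖ ≤ 1 := by
      intro i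
      refine (scaled_deriv hχs hr0.le (e i) ((c * δ ^ k) • a i) j (hB j hj) x).trans ?_
      rw [norm_smul, Real.norm_of_nonneg (by positivity)]
      have h3 : r ^ j ≤ r ^ k := pow_le_pow_right₀ hr1 hj
      have h4 : r ^ k * δ ^ k = 64 ^ k := by
        rw [← mul_pow, hr, div_mul_cancel₀ _ h0.ne']
      calc r ^ j * B * (c * δ ^ k * ‖a i‖) ≤ r ^ k * B * (c * δ ^ k * (d + 1)) := by
            gcongr
            exact ha i
        _ = (r ^ k * δ ^ k) * B * (d + 1) * c := by ring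
        _ = 1 / (6144 * d) := by
            rw [h4, hc]; field_simp
        _ ≤ 1 := by
            rw [div_le_one (by positivity)]; nlinarith
    have hz : ∀ i, δ / 32 < ‖x - e i‖ → iteratedFDeriv ℝ j (f i) x = 0 := by
      intro i hi
      exact scaled_deriv_zero hr0 (e i) _ (fun x hx => hχ0 x hx.le) j x (by rw [h2r]; exact hi)
    by_cases hex : ∃ i, ‖x - e i‖ ≤ δ / 32
    · obtain ⟨i, hi⟩ := hex
      rw [Finset.sum_eq_single i]
      · exact hbd i
      · intro i' _ hne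
        apply hz
        have h3 := hs i i' hne.symm
        have h4 : e i - e i' = (x - e i') - (x - e i) := by abel
        rw [h4] at h3
        have h5 := norm_sub_le (x - e i') (x - e i)
        linarith
      · intro h; exact absurd (Finset.mem_univ i) h
    · push Not at hex
      rw [Finset.sum_eq_zero fun i _ => hz i (hex i), norm_zero]
      exact zero_le_one
  · intro i g hg
    show ∑ i', f i' g = _
    rw [Finset.sum_eq_single i]
    · show χ (r • (g - e i)) • ((c * δ ^ k) • a i) = _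
      rw [hχ1 _ ?_, one_smul]
      rw [norm_smul, Real.norm_of_nonneg hr0.le]
      calc r * ‖g - e i‖ ≤ r * (δ / 64) := by gcongr
        _ = 1 := by rw [hr]; field_simp
    · intro i' _ hne
      show χ (r • (g - e i')) • ((c * δ ^ k) • a i') = 0
      rw [hχ0 _ ?_, zero_smul]
      have h3 := hs i i' hne.symm
      have h4 : e i - e i' = (g - e i') - (g - e i) := by abel
      rw [h4] at h3
      have h5 := norm_sub_le (g - e i') (g - e i)
      have h6 : δ / 32 ≤ ‖g - e i'‖ := by linarith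
      rw [norm_smul, Real.norm_of_nonneg hr0.le]
      calc (2 : ℝ) = r * (δ / 32) := by rw [hr]; field_simp; norm_num
        _ ≤ r * ‖g - e i'‖ := by gcongr
    · intro h; exact absurd (Finset.mem_univ i) h

theorem dil_one (x : V d) : dil 1 x = x := by
  ext i
  rw [dil_apply]
  simp

theorem dir_one {e : V d} (he : ‖e‖ = 1) : dir 1 e = e := by
  rw [dir, dil_one, nrm_of_unit he]

theorem ck_main (hd : 1 ≤ d) (k : ℕ) {q τ C : ℝ} (hβ : 1 ≤ q - 1 / (d : ℝ)) (hC : 0 ≤ C)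
    (h : ∀ Y : V d → V d, ContDiff ℝ ∞ Y → (∀ j ≤ k, ∀ x, ‖iteratedFDeriv ℝ j Y x‖ ≤ 1) →
      ∀ δ : ℝ, 0 < δ → δ < 1 → PBat {z : V d × V d | z.1 = Y z.2} q
        (ENNReal.ofReal (C * δ ^ (-τ))) δ) :
    ∃ C' : ℝ, 0 ≤ C' ∧ ∀ δ : ℝ, 0 < δ → δ < 1 →
      PBat (univ : Set (V d × V d)) q (ENNReal.ofReal (C' * δ ^ (-(((k : ℝ) + 1) * τ)))) δ := by
  have hd' : (1 : ℝ) ≤ d := by exact_mod_cast hd
  have hq : 1 ≤ q := by
    have : 0 ≤ 1 / (d : ℝ) := by positivity
    linarith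
  obtain ⟨c, hc0, hc1, hfield⟩ := ck_field hd k
  obtain ⟨L, hL1, hL⟩ := cap_to_all hd
  set C1 : ℝ := 8 ^ d * (12288 * d) * (C * (8 * c) ^ (-τ)) with hC1
  have hC10 : 0 ≤ C1 := by positivity
  set M : ℝ≥0∞ := (L : ℝ≥0∞) ^ q * ((5 ^ (d + 1) : ℕ) : ℝ≥0∞) ^ (q - 1) with hM
  have hMt : M ≠ ⊤ := ENNReal.mul_ne_top
    (ENNReal.rpow_ne_top_of_nonneg (by linarith) (ENNReal.natCast_ne_top _))
    (ENNReal.rpow_ne_top_of_nonneg (by linarith) (ENNReal.natCast_ne_top _))
  refine ⟨M.toReal * C1, by positivity, fun δ h0 h1 => ?_⟩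
  have hcapB : PBat (CapB d) q (ENNReal.ofReal (C1 * δ ^ (-(((k : ℝ) + 1) * τ)))) δ := by
    intro ι _ a e he hs hcb
    obtain ⟨Y, hY1, hY2, hY3⟩ := hfield δ h0 h1 ι a e hs (fun i => (hcb i).1)
    have hlpos : 0 < c * δ ^ k := by positivity
    have hδk : δ ^ k ≤ 1 := pow_le_one₀ h0.le h1.le
    have hl1 : c * δ ^ k ≤ 1 / (6144 * d) := (mul_le_of_le_one_right hc0.le hδk).trans hc1
    have hl2 : c * δ ^ k ≤ 1 / 6144 := by
      refine hl1.trans ?_
      apply one_div_le_one_div_of_le (by norm_num)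
      linarith
    have h2 := embed hd (ρ := 1) one_pos le_rfl h0 h1 (δ₀ := δ) (l := c * δ ^ k) hlpos hl1
      (a := a) (e := e) (a' := a) (e' := e) he (fun i => (hcb i).2) hs
      (fun i x hx => tube_near (δ := δ) (by linarith) (by rw [sub_self, norm_zero]; positivity)
        (by rw [sub_self, norm_zero]; positivity) hx)
      (LinearIsometryEquiv.refl ℝ (V d)) Y (by
        intro i g hg hgn
        rw [dir_one (he i), one_mul] at hgn
        rw [dil_one]
        exact hY3 i g hgn) hq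
      (h Y hY1 hY2 (8 * (c * δ ^ k) * (1 * δ)) (by positivity) (by nlinarith))
    refine h2.trans (le_of_eq ?_)
    congr 2
    rw [← ENNReal.ofReal_mul (by positivity)]
    congr 1
    have h3 : 8 * (c * δ ^ k) * (1 * δ) = (8 * c) * δ ^ (k + 1) := by ring
    have h4 : (δ ^ (k + 1)) ^ (-τ) = δ ^ (-(((k : ℝ) + 1) * τ)) := by
      rw [← Real.rpow_natCast, ← Real.rpow_mul h0.le]
      congr 1
      push_cast; ring
    rw [h3, Real.mul_rpow (by positivity) (by positivity), h4, hC1]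
    ring
  have h5 := hL q hq _ δ (localise hq hβ _ h1 hcapB)
  intro ι _ a e he hs hA
  refine (h5 ι a e he hs hA).trans (le_of_eq ?_)
  have h6 : ENNReal.ofReal (M.toReal * C1 * δ ^ (-(((k : ℝ) + 1) * τ))) =
      M * ENNReal.ofReal (C1 * δ ^ (-(((k : ℝ) + 1) * τ))) := by
    rw [mul_assoc, ENNReal.ofReal_mul ENNReal.toReal_nonneg, ENNReal.ofReal_toReal hMt]
  rw [h6, hM]
  ring

end Pool.Agent.H222.KW
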