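import Pool.Agent.H222.KW.Ck

/-!
Norm form of the theorem on smooth families.
-/

open MeasureTheory Set Metric Filter
open scoped ENNReal NNReal Topology ContDiff

namespace Pool.Agent.H222.KW

variable {d : ℕ}

/-- norm form at one scale -/
def Hat (d : ℕ) (S : Set (V d × V d)) (q δ K : ℝ) : Prop :=
  ∀ (ι : Type) [Fintype ι] (a e : ι → V d), (∀ i, ‖e i‖ = 1) →
    (∀ i j, i ≠ j → δ ≤ ‖e i - e j‖) → (∀ i, (a i, e i) ∈ S) →
    eLpNorm (fun x => ∑ i, (tube δ (a i) (e i)).indicator (fun _ => (1 : ℝ)) x)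
      (ENNReal.ofReal q) volume ≤
    ENNReal.ofReal (K * δ ^ ((d : ℝ) / q) * (Fintype.card ι : ℝ) ^ (1 - 1 / (q * (d : ℝ))))

theorem Hat_iff (hd : 1 ≤ d) {S : Set (V d × V d)} {q δ K : ℝ} (hq : 1 ≤ q) (hK : 0 ≤ K)
    (h0 : 0 < δ) : Hat d S q δ K ↔ PBat S q (ENNReal.ofReal (K ^ q)) δ := by
  have hq0 : 0 < q := by linarith
  unfold Hat PBat
  refine forall_congr' fun ι => forall_congr' fun _ => forall_congr' fun a => forall_congr' fun e =>
    imp_congr_right fun _ => imp_congr_right fun _ => imp_congr_right fun _ => ?_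
  rw [eLp_eq hq0, one_div, ENNReal.rpow_inv_le_iff hq0, rhs_pow hd hq hK h0 (Nat.cast_nonneg _),
    ENNReal.ofReal_natCast]

theorem Hat_mono {S : Set (V d × V d)} {q δ K K' : ℝ} (h0 : 0 < δ) (hKK : K ≤ K')
    (h : Hat d S q δ K) : Hat d S q δ K' := by
  intro ι _ a e he hs hA
  refine (h ι a e he hs hA).trans (ENNReal.ofReal_le_ofReal ?_)
  gcongr

theorem ck_norm (hd : 1 ≤ d) (k : ℕ) {q τ C : ℝ} (hβ : 1 ≤ q - 1 / (d : ℝ))
    (h : ∀ Y : V d → V d, ContDiff ℝ ∞ Y → (∀ j ≤ k, ∀ x, ‖iteratedFDeriv ℝ j Y x‖ ≤ 1) →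
      ∀ δ : ℝ, 0 < δ → δ < 1 → Hat d {z : V d × V d | z.1 = Y z.2} q δ (C * δ ^ (-τ))) :
    ∃ C' : ℝ, ∀ δ : ℝ, 0 < δ → δ < 1 →
      Hat d univ q δ (C' * δ ^ (-(((k : ℝ) + 1) * τ))) := by
  have hd' : (1 : ℝ) ≤ d := by exact_mod_cast hd
  have hq : 1 ≤ q := by
    have : 0 ≤ 1 / (d : ℝ) := by positivity
    linarith
  have hq0 : 0 < q := by linarith
  obtain ⟨C', hC'0, hC'⟩ := ck_main hd k (τ := q * τ) (C := (max C 0) ^ q) hβ (by positivity) (by
    intro Y hY1 hY2 δ h0 h1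
    have h2 := Hat_mono (K' := max C 0 * δ ^ (-τ)) h0
      (by gcongr; exact le_max_left _ _) (h Y hY1 hY2 δ h0 h1)
    rw [Hat_iff hd hq (by positivity) h0, Real.mul_rpow (by positivity) (by positivity),
      ← Real.rpow_mul h0.le] at h2
    have h3 : -τ * q = -(q * τ) := by ring
    rw [h3] at h2
    exact h2)
  refine ⟨C' ^ (1 / q), fun δ h0 h1 => ?_⟩
  rw [Hat_iff hd hq (by positivity) h0, Real.mul_rpow (by positivity) (by positivity),
    ← Real.rpow_mul h0.le, ← Real.rpow_mul hC'0, one_div_mul_cancel hq0.ne', Real.rpow_one]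
  have h3 : -(((k : ℝ) + 1) * τ) * q = -(((k : ℝ) + 1) * (q * τ)) := by ring
  rw [h3]
  exact hC' δ h0 h1

end Pool.Agent.H222.KW
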