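import Pool.Agent.H222.KW.Geo

/-!
Packing of directions and the embedding of an arbitrary family of tubes.
-/

open MeasureTheory Set Metric Filter
open scoped ENNReal NNReal Topology

namespace Pool.Agent.H222.KW

variable {d : ℕ} {ι : Type} [Fintype ι]

/-- multiplicity function -/
noncomputable def mult (δ : ℝ) (a e : ι → V d) (x : V d) : ℝ≥0∞ :=
  ∑ i, (tube δ (a i) (e i)).indicator (fun _ => 1) x

theorem mult_meas (δ : ℝ) (a e : ι → V d) : Measurable (mult δ a e) := by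
  unfold mult
  exact Finset.measurable_fun_sum _ fun i _ => measurable_const.indicator (tube_meas _ _ _)

/-- `q`-th power of the norm -/
noncomputable def Nq (q δ : ℝ) (a e : ι → V d) : ℝ≥0∞ := ∫⁻ x, (mult δ a e x) ^ q

/-- separated directions -/
def Sep (δ : ℝ) (e : ι → V d) : Prop := ∀ i j, i ≠ j → δ ≤ ‖e i - e j‖

/-- power form of the tube inequality at one scale -/
def PBat (A : Set (V d × V d)) (q : ℝ) (K : ℝ≥0∞) (δ : ℝ) : Prop :=
  ∀ (ι : Type) [Fintype ι] (a e : ι → V d), (∀ i, ‖e i‖ = 1) →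
    Sep δ e → (∀ i, (a i, e i) ∈ A) →
    Nq q δ a e ≤ K * ENNReal.ofReal δ ^ d * (Fintype.card ι : ℝ≥0∞) ^ (q - 1 / (d : ℝ))

/-- power form of the tube inequality -/
def PB (A : Set (V d × V d)) (q : ℝ) (K : ℝ≥0∞) : Prop :=
  ∀ δ : ℝ, 0 < δ → δ < 1 → PBat A q K δ

theorem norm_le_sum (x : V d) : ‖x‖ ≤ ∑ j, |x j| := by
  have h : x = ∑ j, x j • (EuclideanSpace.single j (1 : ℝ)) := by
    ext i
    simp [Finset.sum_apply, Pi.single_apply]
  calc ‖x‖ = ‖∑ j, x j • (EuclideanSpace.single j (1 : ℝ) : V d)‖ := by rw [← h]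
    _ ≤ ∑ j, ‖x j • (EuclideanSpace.single j (1 : ℝ) : V d)‖ := norm_sum_le _ _
    _ = ∑ j, |x j| := by
        refine Finset.sum_congr rfl fun j _ => ?_
        rw [norm_smul]; simp

theorem pack {f : V d} (hf : ‖f‖ = 1) {s δ' : ℝ} (hδ : 0 < δ') (hs : s ≤ 1 / 5) (K : ℕ)
    (hK : 12 * d * K * δ' ≤ s) :
    ∃ g : (Fin d → Fin K) → V d, (∀ m, ‖g m‖ = 1) ∧ (∀ m, ‖g m - f‖ ≤ s) ∧ Sep δ' g := by
  obtain ⟨U, hU⟩ := rot_exists (norm_e0 (d := d)) hf
  set h : (Fin d → Fin K) → V d := fun m =>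
    WithLp.toLp 2 (Fin.cons 1 (fun k => 3 * δ' * (m k : ℝ)) : Fin (d + 1) → ℝ) with hh
  have h0 : ∀ m, (h m) 0 = 1 := fun m => rfl
  have hk : ∀ m (k : Fin d), (h m) k.succ = 3 * δ' * (m k : ℝ) := fun m k => rfl
  have hsm : ∀ m, ‖h m - e0 d‖ ≤ s / 4 := by
    intro m
    refine (norm_le_sum _).trans ?_
    rw [Fin.sum_univ_succ]
    have h1 : (h m - e0 d) 0 = 0 := by
      have : (e0 d) 0 = 1 := by simp [e0]
      simp [h0, this]
    rw [h1, abs_zero, zero_add]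
    calc ∑ k : Fin d, |(h m - e0 d) k.succ| ≤ ∑ _k : Fin d, 3 * δ' * K := by
          refine Finset.sum_le_sum fun k _ => ?_
          have h2 : (h m - e0 d) k.succ = 3 * δ' * (m k : ℝ) := by
            have : (e0 d) k.succ = 0 := by simp [e0]
            simp [hk, this]
          rw [h2, abs_of_nonneg (by positivity)]
          have : ((m k : ℕ) : ℝ) ≤ K := by exact_mod_cast (m k).2.le
          gcongr
      _ = d * (3 * δ' * K) := by simp
      _ ≤ s / 4 := by linarith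
  have hne : ∀ m, h m ≠ 0 := fun m hm => by
    have := h0 m
    rw [hm] at this
    simp at this
  have hnn : ∀ m, ‖nrm (h m) - e0 d‖ ≤ s / 2 := by
    intro m
    have h1 := nrm_lip (norm_ge_of_zero (h0 m)) (norm_e0 (d := d)).ge
    rw [nrm_of_unit norm_e0] at h1
    have := hsm m
    linarith
  have hz : ∀ m, 9 / 10 ≤ (nrm (h m)) 0 := by
    intro m
    have h1 := (abs_apply_le (nrm (h m) - e0 d) 0).trans (hnn m)
    have h2 : (nrm (h m) - e0 d) 0 = (nrm (h m)) 0 - 1 := by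
      have : (e0 d) 0 = 1 := by simp [e0]
      simp [this]
    rw [h2, abs_le] at h1
    linarith [h1.1]
  have hprj : ∀ m, prj (nrm (h m)) = h m := by
    intro m
    have hn : ‖h m‖ ≠ 0 := norm_ne_zero_iff.2 (hne m)
    have h1 : (nrm (h m)) 0 = ‖h m‖⁻¹ := by simp [nrm, h0]
    rw [prj, h1, nrm, smul_smul, inv_inv, mul_inv_cancel₀ hn, one_smul]
  have hs0 : 0 ≤ s := le_trans (by positivity) hK
  refine ⟨fun m => U (nrm (h m)), fun m => ?_, fun m => ?_, fun m m' hmm => ?_⟩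
  · rw [U.norm_map, nrm_unit (hne m)]
  · rw [← hU, ← map_sub, U.norm_map]
    linarith [hnn m]
  · rw [← map_sub, U.norm_map]
    have h1 := prj_lip (nrm_unit (hne m')) (hz m) (hz m')
    rw [hprj, hprj] at h1
    obtain ⟨k, hkk⟩ : ∃ k, m k ≠ m' k := by
      by_contra hcon
      push Not at hcon
      exact hmm (funext hcon)
    have h2 := abs_apply_le (h m - h m') k.succ
    have h3 : (h m - h m') k.succ = 3 * δ' * ((m k : ℝ) - (m' k : ℝ)) := by
      simp only [PiLp.sub_apply, hk]; ring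
    rw [h3, abs_mul, abs_of_pos (by positivity : 0 < 3 * δ')] at h2
    have h4 : (1 : ℝ) ≤ |(m k : ℝ) - (m' k : ℝ)| := by
      have h5 : ((m k : ℕ) : ℤ) - ((m' k : ℕ) : ℤ) ≠ 0 := by
        intro h6
        apply hkk
        apply Fin.ext
        omega
      have h6 := Int.one_le_abs h5
      have h7 : ((|((m k : ℕ) : ℤ) - ((m' k : ℕ) : ℤ)| : ℤ) : ℝ) = |(m k : ℝ) - (m' k : ℝ)| := by
        push_cast; rfl
      rw [← h7]
      exact_mod_cast h6
    nlinarith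

/-- change of variables -/
theorem change_var {ρ l : ℝ} (hρ : 0 < ρ) (hl : 0 < l) (U : V d ≃ₗᵢ[ℝ] V d) {G : V d → ℝ≥0∞}
    (hG : Measurable G) :
    ∫⁻ y, G y = ENNReal.ofReal (l ^ (d + 1) * ρ ^ d) * ∫⁻ x, G (l • U (dil ρ x)) := by
  have h1 : ∫⁻ y, G (l • y) = ENNReal.ofReal |(l ^ (d + 1))⁻¹| * ∫⁻ x, G x := by
    have h3 := lintegral_map (μ := (volume : Measure (V d))) hG (measurable_const_smul l)
    rw [Measure.map_addHaar_smul volume hl.ne', lintegral_smul_measure] at h3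
    simp only [finrank_euclideanSpace, Fintype.card_fin] at h3
    exact h3.symm
  have hm1 : Measurable fun y : V d => G (l • y) := hG.comp (measurable_const_smul l)
  have h2 : ∫⁻ y, G (l • U y) = ∫⁻ y, G (l • y) :=
    U.measurePreserving.lintegral_comp hm1
  have hm2 : Measurable fun y : V d => G (l • U y) :=
    hm1.comp U.continuous.measurable
  have hdet : LinearMap.det (dil (d := d) ρ) ≠ 0 := by
    rw [dil_det]; positivity
  have h4 : ∫⁻ x, G (l • U (dil ρ x)) = ENNReal.ofReal |(ρ ^ d)⁻¹| * ∫⁻ y, G (l • U y) := by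
    have hmd : Measurable (dil (d := d) ρ) :=
      (LinearMap.continuous_of_finiteDimensional (dil (d := d) ρ)).measurable
    have h3 := lintegral_map (μ := (volume : Measure (V d))) hm2 hmd
    rw [Measure.map_linearMap_addHaar_eq_smul_addHaar volume hdet, lintegral_smul_measure,
      dil_det] at h3
    exact h3.symm
  have hl' : 0 < l ^ (d + 1) := by positivity
  have hρ' : 0 < ρ ^ d := by positivity
  rw [h4, h2, h1, ← mul_assoc, ← mul_assoc, ← ENNReal.ofReal_mul (by positivity),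
    ← ENNReal.ofReal_mul (by positivity), abs_of_pos (inv_pos.2 hl'), abs_of_pos (inv_pos.2 hρ')]
  have : l ^ (d + 1) * ρ ^ d * (ρ ^ d)⁻¹ * (l ^ (d + 1))⁻¹ = 1 := by
    field_simp
  rw [this, ENNReal.ofReal_one, one_mul]

theorem mem_tube_of {δ' : ℝ} {b g y : V d} (hg : ‖g‖ = 1) (h1 : ‖y - b‖ ≤ 1 / 2) {S : ℝ}
    (h2 : ‖(y - b) - S • g‖ ≤ δ') : y ∈ tube δ' b g := by
  refine ⟨?_, ?_⟩
  · calc |(inner ℝ (y - b) g : ℝ)| ≤ ‖y - b‖ * ‖g‖ := abs_real_inner_le_norm _ _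
      _ ≤ 1 / 2 := by rw [hg, mul_one]; exact h1
  · refine le_trans ?_ h2
    set v := y - b
    set t : ℝ := inner ℝ v g with ht
    have h3 : inner ℝ (v - t • g) g = 0 := by
      rw [inner_sub_left, inner_smul_left, real_inner_self_eq_norm_sq, hg]; simp [ht]
    have h4 : v - S • g = (v - t • g) + (t - S) • g := by module
    have h5 : ‖v - S • g‖ ^ 2 = ‖v - t • g‖ ^ 2 + ‖(t - S) • g‖ ^ 2 := by
      rw [h4, norm_add_sq_real, inner_smul_right, h3]; ring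
    have h6 : ‖v - t • g‖ ^ 2 ≤ ‖v - S • g‖ ^ 2 := by
      rw [h5]; nlinarith [sq_nonneg ‖(t - S) • g‖]
    exact le_of_sq_le_sq h6 (norm_nonneg _)

theorem embed (hd : 1 ≤ d) {ρ δ δ₀ l : ℝ} (hρ : 0 < ρ) (hρ1 : ρ ≤ 1) (hδ : 0 < δ) (hδ1 : δ < 1)
    (hl : 0 < l) (hl1 : l ≤ 1 / (6144 * d)) {a e a' e' : ι → V d} (he : ∀ i, ‖e i‖ = 1)
    (hc : ∀ i, ‖e i - e0 d‖ ≤ 1 / 8) (hs : Sep δ e)
    (happ : ∀ i x, x ∈ tube δ₀ (a' i) (e' i) → ∃ S : ℝ, |S| ≤ 1 ∧ ‖x - a i - S • e i‖ ≤ 3 * δ)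
    (U : V d ≃ₗᵢ[ℝ] V d) (Y : V d → V d)
    (hY : ∀ i g, ‖g‖ = 1 → ‖g - U (dir ρ (e i))‖ ≤ ρ * δ / 64 → Y g = l • U (dil ρ (a i)))
    {q : ℝ} (hq : 1 ≤ q) {K : ℝ≥0∞}
    (h : PBat {z : V d × V d | z.1 = Y z.2} q K (8 * l * (ρ * δ))) :
    Nq q δ₀ a' e' ≤ ENNReal.ofReal (8 ^ d * (12288 * d)) * K * ENNReal.ofReal δ ^ d *
      (Fintype.card ι : ℝ≥0∞) ^ (q - 1 / (d : ℝ)) := by
  classical
  have hd' : (1 : ℝ) ≤ d := by exact_mod_cast hd
  have hd0 : (0 : ℝ) < d := by linarith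
  set x0 : ℝ := 1 / (6144 * d * l) with hx0
  have hx0' : 1 ≤ x0 := by
    rw [hx0, le_div_iff₀ (by positivity)]
    rw [le_div_iff₀ (by positivity)] at hl1
    linarith
  set Kg : ℕ := ⌊x0⌋₊ with hKg
  have hKg1 : (Kg : ℝ) ≤ x0 := Nat.floor_le (by linarith)
  have hKg2 : x0 < Kg + 1 := Nat.lt_floor_add_one x0
  have hKgpos : 1 ≤ Kg := by
    rw [hKg, Nat.one_le_floor_iff]; exact hx0'
  have hKgr : (1 : ℝ) ≤ Kg := by exact_mod_cast hKgpos
  have hl80 : l ≤ 1 / 6144 := by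
    refine hl1.trans ?_
    apply one_div_le_one_div_of_le (by norm_num)
    linarith
  set δ' : ℝ := 8 * l * (ρ * δ) with hδ'
  have hρδ : 0 < ρ * δ := mul_pos hρ hδ
  have hρδ1 : ρ * δ < 1 := by nlinarith
  have hδ'0 : 0 < δ' := by positivity
  have hKd : 12 * d * Kg * δ' ≤ ρ * δ / 64 := by
    have h1 : (6144 * d * l) * x0 = 1 := by
      rw [hx0]; field_simp
    have h2 : (6144 * d * l) * Kg ≤ 1 := by
      rw [← h1]; gcongr
    calc 12 * d * Kg * δ' = (6144 * d * l) * Kg * (ρ * δ) / 64 := by rw [hδ']; ring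
      _ ≤ 1 * (ρ * δ) / 64 := by gcongr
      _ = ρ * δ / 64 := by ring
  have hdp : ∀ i, 0 < (e i) 0 := fun i => by linarith [unit_zero (he i) (hc i)]
  have hpk : ∀ i, ∃ g : (Fin d → Fin Kg) → V d, (∀ m, ‖g m‖ = 1) ∧
      (∀ m, ‖g m - U (dir ρ (e i))‖ ≤ ρ * δ / 64) ∧ Sep δ' g := fun i =>
    pack (by rw [U.norm_map]; exact dir_unit (hdp i)) hδ'0 (by linarith) Kg hKd
  choose g hg1 hg2 hg3 using hpk
  -- the new family
  have hnew := h (ι × (Fin d → Fin Kg)) (fun z => Y (g z.1 z.2)) (fun z => g z.1 z.2)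
    (fun z => hg1 z.1 z.2) (by
      rintro ⟨i, m⟩ ⟨j, m'⟩ hne
      show δ' ≤ ‖g i m - g j m'‖
      by_cases hij : i = j
      · subst hij
        exact hg3 i m m' fun hmm => hne (by rw [hmm])
      · have h1 := hs i j hij
        have h2 := dir_sep hρ.le hρ1 (he i) (hc i) (he j) (hc j)
        have h3 : ‖U (dir ρ (e i)) - U (dir ρ (e j))‖ = ‖dir ρ (e i) - dir ρ (e j)‖ := by
          rw [← map_sub, U.norm_map]
        have h4 := hg2 i m
        have h5 := hg2 j m'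
        have h6 : ‖U (dir ρ (e i)) - U (dir ρ (e j))‖ ≤ ‖g i m - U (dir ρ (e i))‖ +
            ‖g i m - g j m'‖ + ‖g j m' - U (dir ρ (e j))‖ := by
          have h7 : U (dir ρ (e i)) - U (dir ρ (e j)) = -(g i m - U (dir ρ (e i))) +
            (g i m - g j m') + (g j m' - U (dir ρ (e j))) := by abel
          rw [h7]
          refine (norm_add_le _ _).trans ?_
          gcongr
          refine (norm_add_le _ _).trans ?_
          rw [norm_neg]
        have h8 : ρ / 8 * δ ≤ ρ / 8 * ‖e i - e j‖ := by gcongr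
        have h9 : δ' ≤ ρ * δ / 64 := by rw [hδ']; nlinarith
        have h10 : ρ / 8 * δ = ρ * δ / 8 := by ring
        linarith) (fun z => rfl)
  have hmem : ∀ i m x, x ∈ tube δ₀ (a' i) (e' i) →
      l • U (dil ρ x) ∈ tube δ' (Y (g i m)) (g i m) := by
    intro i m x hx
    obtain ⟨S0, hS0, hS1⟩ := happ i x hx
    obtain ⟨S, W, h1, h2, h3⟩ := dil_tube hρ hρ1 hδ hδ1 (he i) (hc i) hS0 hS1
    have hYg := hY i (g i m) (hg1 i m) (hg2 i m)
    have h4 : l • U (dil ρ x) - Y (g i m) = (l * S) • U (dir ρ (e i)) + l • U W := by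
      rw [hYg, ← smul_sub, ← map_sub, ← map_sub, h1, map_add, map_smul, smul_add, smul_smul]
    have hdu : ‖U (dir ρ (e i))‖ = 1 := by rw [U.norm_map]; exact dir_unit (hdp i)
    have h5 : ‖l • U W‖ ≤ l * (7 * (ρ * δ)) := by
      rw [norm_smul, Real.norm_of_nonneg hl.le, U.norm_map]
      gcongr
    refine mem_tube_of (hg1 i m) (S := l * S) ?_ ?_
    · rw [h4]
      calc ‖(l * S) • U (dir ρ (e i)) + l • U W‖ ≤ ‖(l * S) • U (dir ρ (e i))‖ + ‖l • U W‖ :=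
            norm_add_le _ _
        _ ≤ l * 5 + l * (7 * (ρ * δ)) := by
            rw [norm_smul, hdu, mul_one, Real.norm_eq_abs, abs_mul, abs_of_pos hl]
            gcongr
        _ ≤ 1 / 2 := by nlinarith
    · rw [h4]
      have h6 : (l * S) • U (dir ρ (e i)) + l • U W - (l * S) • g i m =
          -((l * S) • (g i m - U (dir ρ (e i)))) + l • U W := by module
      rw [h6]
      calc ‖-((l * S) • (g i m - U (dir ρ (e i)))) + l • U W‖
          ≤ ‖(l * S) • (g i m - U (dir ρ (e i)))‖ + ‖l • U W‖ := by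
            refine (norm_add_le _ _).trans ?_
            rw [norm_neg]
        _ ≤ (l * 5) * (ρ * δ / 64) + l * (7 * (ρ * δ)) := by
            rw [norm_smul, Real.norm_eq_abs, abs_mul, abs_of_pos hl]
            gcongr
            exact hg2 i m
        _ ≤ δ' := by
            rw [hδ']
            have : 0 < l * (ρ * δ) := mul_pos hl hρδ
            nlinarith
  have hmult : ∀ x, ((Kg : ℝ≥0∞) ^ d) * mult δ₀ a' e' x ≤
      mult δ' (fun z : ι × (Fin d → Fin Kg) => Y (g z.1 z.2)) (fun z => g z.1 z.2)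
        (l • U (dil ρ x)) := by
    intro x
    unfold mult
    rw [Fintype.sum_prod_type, Finset.mul_sum]
    refine Finset.sum_le_sum fun i _ => ?_
    by_cases hx : x ∈ tube δ₀ (a' i) (e' i)
    · rw [indicator_of_mem hx]
      have h1 : ∀ m ∈ (Finset.univ : Finset (Fin d → Fin Kg)),
          (tube δ' (Y (g i m)) (g i m)).indicator (fun _ => (1 : ℝ≥0∞)) (l • U (dil ρ x)) = 1 :=
        fun m _ => indicator_of_mem (hmem i m x hx) _
      rw [Finset.sum_congr rfl h1]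
      simp
    · rw [indicator_of_notMem hx, mul_zero]; exact bot_le
  set N : ℝ≥0∞ := (Fintype.card ι : ℝ≥0∞) with hN
  set M : ℝ≥0∞ := (Kg : ℝ≥0∞) ^ d with hM
  have hKg0 : (Kg : ℝ≥0∞) ≠ 0 := by
    simp; omega
  have hKgt : (Kg : ℝ≥0∞) ≠ ∞ := ENNReal.natCast_ne_top _
  have hM0 : M ≠ 0 := pow_ne_zero _ hKg0
  have hMt : M ≠ ∞ := ENNReal.pow_ne_top hKgt
  have hq0 : 0 < q := by linarith
  have hβ : 0 ≤ q - 1 / (d : ℝ) := by
    have : 1 / (d : ℝ) ≤ 1 := by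
      rw [div_le_one hd0]; exact hd'
    linarith
  have hcard : ((Fintype.card (ι × (Fin d → Fin Kg)) : ℕ) : ℝ≥0∞) = M * N := by
    simp [hM, hN, mul_comm]
  rw [hcard] at hnew
  -- lower bound for the integral
  have hlow : ENNReal.ofReal (l ^ (d + 1) * ρ ^ d) * (M ^ q * Nq q δ₀ a' e') ≤
      K * ENNReal.ofReal δ' ^ d * (M * N) ^ (q - 1 / (d : ℝ)) := by
    refine le_trans ?_ hnew
    unfold Nq
    have hcv := change_var (d := d) hρ hl U
      (G := fun y => (mult δ' (fun z : ι × (Fin d → Fin Kg) => Y (g z.1 z.2))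
        (fun z => g z.1 z.2) y) ^ q) ((mult_meas _ _ _).pow_const q)
    rw [hcv, ← lintegral_const_mul _ ((mult_meas δ₀ a' e').pow_const q)]
    gcongr with x
    rw [← ENNReal.mul_rpow_of_nonneg _ _ hq0.le]
    exact ENNReal.rpow_le_rpow (hmult x) hq0.le
  have hMpow : M ^ q = M ^ (q - 1 / (d : ℝ)) * (Kg : ℝ≥0∞) := by
    have h1 : (Kg : ℝ≥0∞) = M ^ (1 / (d : ℝ)) := by
      rw [hM, ← ENNReal.rpow_natCast, ← ENNReal.rpow_mul, mul_one_div_cancel hd0.ne',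
        ENNReal.rpow_one]
    conv_rhs => rw [h1]
    rw [← ENNReal.rpow_add _ _ hM0 hMt, sub_add_cancel]
  have hMβ0 : M ^ (q - 1 / (d : ℝ)) ≠ 0 := by
    intro h0
    rw [ENNReal.rpow_eq_zero_iff] at h0
    rcases h0 with h0 | h0
    · exact hM0 h0.1
    · exact hMt h0.1
  have hMβt : M ^ (q - 1 / (d : ℝ)) ≠ ∞ := ENNReal.rpow_ne_top_of_nonneg hβ hMt
  rw [hMpow, ENNReal.mul_rpow_of_nonneg _ _ hβ] at hlow
  have hlow2 : ENNReal.ofReal (l ^ (d + 1) * ρ ^ d) * ((Kg : ℝ≥0∞) * Nq q δ₀ a' e') ≤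
      K * ENNReal.ofReal δ' ^ d * N ^ (q - 1 / (d : ℝ)) := by
    have h1 : M ^ (q - 1 / (d : ℝ)) *
        (ENNReal.ofReal (l ^ (d + 1) * ρ ^ d) * ((Kg : ℝ≥0∞) * Nq q δ₀ a' e')) ≤
        M ^ (q - 1 / (d : ℝ)) * (K * ENNReal.ofReal δ' ^ d * N ^ (q - 1 / (d : ℝ))) := by
      calc _ = ENNReal.ofReal (l ^ (d + 1) * ρ ^ d) *
            (M ^ (q - 1 / (d : ℝ)) * (Kg : ℝ≥0∞) * Nq q δ₀ a' e') := by ring
        _ ≤ _ := hlow
        _ = _ := by ring
    exact (ENNReal.mul_le_mul_iff_right hMβ0 hMβt).1 h1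
  -- final arithmetic
  set c : ℝ := l ^ (d + 1) * ρ ^ d * Kg with hcdef
  have hc0 : 0 < c := by positivity
  have hlow3 : ENNReal.ofReal c * Nq q δ₀ a' e' ≤
      K * ENNReal.ofReal δ' ^ d * N ^ (q - 1 / (d : ℝ)) := by
    refine le_trans (le_of_eq ?_) hlow2
    rw [hcdef, ENNReal.ofReal_mul (by positivity), ENNReal.ofReal_natCast]
    ring
  have hfin : Nq q δ₀ a' e' ≤ ENNReal.ofReal (c⁻¹) *
      (K * ENNReal.ofReal δ' ^ d * N ^ (q - 1 / (d : ℝ))) := by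
    calc Nq q δ₀ a' e' = ENNReal.ofReal (c⁻¹) * (ENNReal.ofReal c * Nq q δ₀ a' e') := by
          rw [← mul_assoc, ← ENNReal.ofReal_mul (by positivity), inv_mul_cancel₀ hc0.ne',
            ENNReal.ofReal_one, one_mul]
      _ ≤ _ := by gcongr
  refine hfin.trans ?_
  have hδpow : ENNReal.ofReal δ' ^ d = ENNReal.ofReal ((8 * l * ρ) ^ d) * ENNReal.ofReal δ ^ d := by
    rw [← ENNReal.ofReal_pow hδ'0.le, ← ENNReal.ofReal_pow hδ.le, ← ENNReal.ofReal_mul
      (by positivity), ← mul_pow]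
    congr 2
    rw [hδ']; ring
  rw [hδpow]
  have hcc : c⁻¹ * (8 * l * ρ) ^ d ≤ 8 ^ d * (12288 * d) := by
    have h1 : c⁻¹ * (8 * l * ρ) ^ d = 8 ^ d * (l * Kg)⁻¹ := by
      rw [hcdef, mul_pow, mul_pow, pow_succ]
      have : (Kg : ℝ) ≠ 0 := by linarith
      field_simp
    rw [h1]
    gcongr
    rw [inv_le_comm₀ (by positivity) (by positivity)]
    have h2 : x0 ≤ 2 * Kg := by linarith
    have h3 : (6144 * d * l) * x0 = 1 := by
      rw [hx0]; field_simp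
    have h4 : 1 ≤ (6144 * d * l) * (2 * Kg) := by
      rw [← h3]; gcongr
    rw [inv_le_iff_one_le_mul₀ (by positivity)]
    nlinarith
  calc ENNReal.ofReal c⁻¹ * (K * (ENNReal.ofReal ((8 * l * ρ) ^ d) * ENNReal.ofReal δ ^ d) *
        N ^ (q - 1 / (d : ℝ)))
      = (ENNReal.ofReal c⁻¹ * ENNReal.ofReal ((8 * l * ρ) ^ d)) * K * ENNReal.ofReal δ ^ d *
        N ^ (q - 1 / (d : ℝ)) := by ring
    _ ≤ ENNReal.ofReal (8 ^ d * (12288 * d)) * K * ENNReal.ofReal δ ^ d *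
        N ^ (q - 1 / (d : ℝ)) := by
        rw [← ENNReal.ofReal_mul (by positivity)]
        gcongr

theorem tube_near {δ₀ δ : ℝ} {a e a' e' x : V d} (h1 : δ₀ ≤ 2 * δ) (ha : ‖a' - a‖ ≤ δ / 2)
    (he : ‖e' - e‖ ≤ δ / 2) (hx : x ∈ tube δ₀ a' e') :
    ∃ S : ℝ, |S| ≤ 1 ∧ ‖x - a - S • e‖ ≤ 3 * δ := by
  obtain ⟨hx1, hx2⟩ := hx
  set S : ℝ := inner ℝ (x - a') e' with hS
  refine ⟨S, by linarith, ?_⟩
  have h2 : x - a - S • e = (x - a' - S • e') + (a' - a) + S • (e' - e) := by module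
  have h3 : ‖S • (e' - e)‖ ≤ 1 / 2 * (δ / 2) := by
    rw [norm_smul, Real.norm_eq_abs]
    gcongr
  rw [h2]
  have hδ : 0 ≤ δ := by linarith [norm_nonneg (a' - a)]
  calc ‖(x - a' - S • e') + (a' - a) + S • (e' - e)‖
      ≤ ‖(x - a' - S • e') + (a' - a)‖ + ‖S • (e' - e)‖ := norm_add_le _ _
    _ ≤ (‖x - a' - S • e'‖ + ‖a' - a‖) + ‖S • (e' - e)‖ := by gcongr; exact norm_add_le _ _
    _ ≤ (δ₀ + δ / 2) + 1 / 2 * (δ / 2) := by gcongr
    _ ≤ 3 * δ := by linarith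

end Pool.Agent.H222.KW
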