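import Mathlib

/-!
Geometry of tubes: normalisation maps and the anisotropic dilation.
-/

open MeasureTheory Set Metric Filter
open scoped ENNReal NNReal Topology

namespace Pool.Agent.H222.KW

/-- Euclidean space of dimension `d + 1`. -/
abbrev V (d : ℕ) := EuclideanSpace ℝ (Fin (d + 1))

variable {d : ℕ}

/-- the first basis vector -/
noncomputable def e0 (d : ℕ) : V d := EuclideanSpace.single 0 1

theorem norm_e0 : ‖e0 d‖ = 1 := by simp [e0]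

theorem inner_e0 (x : V d) : inner ℝ x (e0 d) = x 0 := by
  simp [e0, EuclideanSpace.inner_single_right]

theorem inner_e0_e0 : inner ℝ (e0 d) (e0 d) = 1 := by
  rw [real_inner_self_eq_norm_sq, norm_e0]; norm_num

/-- closed tube -/
def tube (δ : ℝ) (a e : V d) : Set (V d) :=
  {y | |inner ℝ (y - a) e| ≤ 1 / 2 ∧ ‖(y - a) - (inner ℝ (y - a) e : ℝ) • e‖ ≤ δ}

theorem tube_closed (δ : ℝ) (a e : V d) : IsClosed (tube δ a e) := by
  have h1 : Continuous fun y : V d => |(inner ℝ (y - a) e : ℝ)| := by fun_prop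
  have h2 : Continuous fun y : V d => ‖(y - a) - (inner ℝ (y - a) e : ℝ) • e‖ := by fun_prop
  exact (isClosed_le h1 continuous_const).inter (isClosed_le h2 continuous_const)

theorem tube_meas (δ : ℝ) (a e : V d) : MeasurableSet (tube δ a e) :=
  (tube_closed δ a e).measurableSet

/-- inner product of unit vectors through the distance -/
theorem inner_unit {x y : V d} (hx : ‖x‖ = 1) (hy : ‖y‖ = 1) :
    inner ℝ x y = 1 - ‖x - y‖ ^ 2 / 2 := by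
  have := norm_sub_sq_real x y
  rw [hx, hy] at this
  linarith

/-- normalised vector -/
noncomputable def nrm (x : V d) : V d := ‖x‖⁻¹ • x

theorem nrm_unit {x : V d} (hx : x ≠ 0) : ‖nrm x‖ = 1 := by
  rw [nrm, norm_smul, norm_inv, norm_norm, inv_mul_cancel₀ (norm_ne_zero_iff.2 hx)]

theorem nrm_of_unit {x : V d} (hx : ‖x‖ = 1) : nrm x = x := by
  rw [nrm, hx]; simp

theorem nrm_smul {x : V d} {c : ℝ} (hc : 0 < c) : nrm (c • x) = nrm x := by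
  rw [nrm, nrm, norm_smul, Real.norm_of_nonneg hc.le, smul_smul]
  congr 1
  rcases eq_or_ne (‖x‖) 0 with h | h
  · rw [h]; simp
  · field_simp

theorem nrm_lip {u w : V d} (hu : 1 ≤ ‖u‖) (hw : 1 ≤ ‖w‖) : ‖nrm u - nrm w‖ ≤ 2 * ‖u - w‖ := by
  have hu0 : 0 < ‖u‖ := by linarith
  have hw0 : 0 < ‖w‖ := by linarith
  have h1 : nrm u - nrm w = ‖u‖⁻¹ • (u - w) + (‖u‖⁻¹ - ‖w‖⁻¹) • w := by
    simp only [nrm]; module
  have h2 : |‖u‖⁻¹ - ‖w‖⁻¹| * ‖w‖ ≤ ‖u‖⁻¹ * ‖u - w‖ := by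
    have h3 : ‖u‖⁻¹ - ‖w‖⁻¹ = ‖u‖⁻¹ * (‖w‖ - ‖u‖) * ‖w‖⁻¹ := by
      field_simp
    rw [h3, abs_mul, abs_mul, abs_of_pos (inv_pos.2 hu0), abs_of_pos (inv_pos.2 hw0), mul_assoc,
      inv_mul_cancel₀ hw0.ne', mul_one]
    gcongr
    rw [abs_sub_comm]
    exact abs_norm_sub_norm_le u w
  have h4 : ‖u‖⁻¹ ≤ 1 := inv_le_one_of_one_le₀ hu
  calc ‖nrm u - nrm w‖ ≤ ‖‖u‖⁻¹ • (u - w)‖ + ‖(‖u‖⁻¹ - ‖w‖⁻¹) • w‖ := by
        rw [h1]; exact norm_add_le _ _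
    _ = ‖u‖⁻¹ * ‖u - w‖ + |‖u‖⁻¹ - ‖w‖⁻¹| * ‖w‖ := by
        rw [norm_smul, norm_smul, Real.norm_eq_abs, Real.norm_eq_abs, abs_of_pos (inv_pos.2 hu0)]
    _ ≤ ‖u‖⁻¹ * ‖u - w‖ + ‖u‖⁻¹ * ‖u - w‖ := by gcongr
    _ ≤ 1 * ‖u - w‖ + 1 * ‖u - w‖ := by gcongr
    _ = 2 * ‖u - w‖ := by ring

/-- projective normalisation -/
noncomputable def prj (x : V d) : V d := (x 0)⁻¹ • x

theorem prj_apply_zero {x : V d} (hx : x 0 ≠ 0) : (prj x) 0 = 1 := by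
  simp [prj, hx]

theorem abs_apply_le (x : V d) (i : Fin (d + 1)) : |x i| ≤ ‖x‖ := by
  have := PiLp.norm_apply_le x i
  simpa using this

theorem prj_lip {g h : V d} (hh1 : ‖h‖ = 1) (hg : 9 / 10 ≤ g 0) (hh : 9 / 10 ≤ h 0) :
    ‖prj g - prj h‖ ≤ 12 / 5 * ‖g - h‖ := by
  have hg0 : 0 < g 0 := by linarith
  have hh0 : 0 < h 0 := by linarith
  have h1 : prj g - prj h = (g 0)⁻¹ • (g - h) + ((g 0)⁻¹ - (h 0)⁻¹) • h := by
    simp only [prj]; module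
  have h2 : |(g 0)⁻¹ - (h 0)⁻¹| ≤ (10 / 9) * (10 / 9) * ‖g - h‖ := by
    have h3 : (g 0)⁻¹ - (h 0)⁻¹ = (g 0)⁻¹ * (h 0)⁻¹ * (h 0 - g 0) := by
      field_simp
    rw [h3, abs_mul, abs_mul, abs_of_pos (inv_pos.2 hg0), abs_of_pos (inv_pos.2 hh0)]
    have h4 : (g 0)⁻¹ ≤ 10 / 9 := by
      rw [inv_le_comm₀ hg0 (by norm_num)]; norm_num; linarith
    have h5 : (h 0)⁻¹ ≤ 10 / 9 := by
      rw [inv_le_comm₀ hh0 (by norm_num)]; norm_num; linarith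
    have h6 : |h 0 - g 0| ≤ ‖g - h‖ := by
      rw [abs_sub_comm]
      exact abs_apply_le (g - h) 0
    gcongr
  have h4 : (g 0)⁻¹ ≤ 10 / 9 := by
    rw [inv_le_comm₀ hg0 (by norm_num)]; norm_num; linarith
  calc ‖prj g - prj h‖ ≤ ‖(g 0)⁻¹ • (g - h)‖ + ‖((g 0)⁻¹ - (h 0)⁻¹) • h‖ := by
        rw [h1]; exact norm_add_le _ _
    _ = (g 0)⁻¹ * ‖g - h‖ + |(g 0)⁻¹ - (h 0)⁻¹| := by
        rw [norm_smul, norm_smul, Real.norm_eq_abs, Real.norm_eq_abs, abs_of_pos (inv_pos.2 hg0),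
          hh1, mul_one]
    _ ≤ 10 / 9 * ‖g - h‖ + (10 / 9) * (10 / 9) * ‖g - h‖ := by gcongr
    _ ≤ 12 / 5 * ‖g - h‖ := by nlinarith [norm_nonneg (g - h)]

theorem nrm_prj {x : V d} (hx : 0 < x 0) (h1 : ‖x‖ = 1) : nrm (prj x) = x := by
  rw [prj, nrm_smul (inv_pos.2 hx), nrm_of_unit h1]

/-- the anisotropic dilation -/
noncomputable def dil (ρ : ℝ) : V d →ₗ[ℝ] V d where
  toFun x := WithLp.toLp 2 (fun i => (if i = 0 then 1 else ρ) * x i)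
  map_add' x y := by
    ext i; simp [mul_add]
  map_smul' c x := by
    ext i
    show (if i = 0 then 1 else ρ) * (c * x i) = c * ((if i = 0 then 1 else ρ) * x i)
    ring

theorem dil_apply (ρ : ℝ) (x : V d) (i : Fin (d + 1)) :
    dil ρ x i = (if i = 0 then 1 else ρ) * x i := rfl

theorem dil_det (ρ : ℝ) : LinearMap.det (dil (d := d) ρ) = ρ ^ d := by
  rw [← LinearMap.det_toMatrix (EuclideanSpace.basisFun (Fin (d + 1)) ℝ).toBasis]
  have h : LinearMap.toMatrix (EuclideanSpace.basisFun (Fin (d + 1)) ℝ).toBasis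
      (EuclideanSpace.basisFun (Fin (d + 1)) ℝ).toBasis (dil (d := d) ρ) =
      Matrix.diagonal (fun i => if i = 0 then 1 else ρ) := by
    ext i j
    rw [LinearMap.toMatrix_apply]
    simp only [OrthonormalBasis.coe_toBasis, EuclideanSpace.basisFun_apply,
      OrthonormalBasis.coe_toBasis_repr_apply, EuclideanSpace.basisFun_repr, dil_apply]
    rcases eq_or_ne i j with rfl | hij
    · simp
    · simp [hij]
  rw [h, Matrix.det_diagonal, Fin.prod_univ_succ]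
  simp

theorem dil_perp (ρ : ℝ) {x : V d} (hx : x 0 = 0) : dil ρ x = ρ • x := by
  ext i
  rw [dil_apply]
  rcases eq_or_ne i 0 with rfl | hi
  · simp [hx]
  · simp [hi]

theorem dil_zero (ρ : ℝ) (x : V d) : (dil ρ x) 0 = x 0 := by simp [dil_apply]

theorem dil_norm_le {ρ : ℝ} (h0 : 0 ≤ ρ) (h1 : ρ ≤ 1) (x : V d) : ‖dil ρ x‖ ≤ ‖x‖ := by
  rw [EuclideanSpace.norm_eq, EuclideanSpace.norm_eq]
  refine Real.sqrt_le_sqrt (Finset.sum_le_sum fun i _ => ?_)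
  have h2 : ‖dil ρ x i‖ ≤ ‖x i‖ := by
    rw [dil_apply, norm_mul]
    have : ‖(if i = 0 then (1 : ℝ) else ρ)‖ ≤ 1 := by
      split_ifs
      · simp
      · rw [Real.norm_of_nonneg h0]; exact h1
    calc _ ≤ 1 * ‖x i‖ := by gcongr
      _ = _ := one_mul _
  gcongr

theorem unit_zero {e : V d} (he : ‖e‖ = 1) (hc : ‖e - e0 d‖ ≤ 1 / 8) : 99 / 100 ≤ e 0 := by
  have h1 := inner_unit he norm_e0
  rw [inner_e0] at h1
  have h2 : ‖e - e0 d‖ ^ 2 ≤ (1 / 8) ^ 2 := by gcongr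
  rw [h1]; linarith

theorem prj_e0 : prj (e0 d) = e0 d := by
  have : (e0 d) 0 = 1 := by simp [e0]
  rw [prj, this]; simp

theorem prj_sub_e0 {e : V d} (he : ‖e‖ = 1) (hc : ‖e - e0 d‖ ≤ 1 / 8) :
    ‖prj e - e0 d‖ ≤ 3 / 10 := by
  have h1 : ‖prj e - prj (e0 d)‖ ≤ 12 / 5 * ‖e - e0 d‖ :=
    prj_lip norm_e0 (by linarith [unit_zero he hc]) (by simp [e0]; norm_num)
  rw [prj_e0] at h1
  linarith

theorem norm_ge_of_zero {x : V d} (hx : x 0 = 1) : 1 ≤ ‖x‖ := by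
  have := abs_apply_le x 0
  rw [hx, abs_one] at this
  exact this

/-- direction of the dilated tube -/
noncomputable def dir (ρ : ℝ) (e : V d) : V d := nrm (dil ρ e)

theorem dil_prj (ρ : ℝ) (e : V d) : dil ρ (prj e) = prj (dil ρ e) := by
  rw [prj, prj, map_smul, dil_zero]

theorem dil_prj_sub {ρ : ℝ} {e : V d} (he : e 0 ≠ 0) :
    dil ρ (prj e) - e0 d = ρ • (prj e - e0 d) := by
  have h1 : (prj e - e0 d) 0 = 0 := by
    have := prj_apply_zero he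
    simp [this, e0]
  have h2 : dil ρ (e0 d) = e0 d := by
    ext i
    rw [dil_apply]
    rcases eq_or_ne i 0 with rfl | hi
    · simp
    · simp [e0, hi]
  rw [← dil_perp ρ h1, map_sub, h2]

theorem dir_eq {ρ : ℝ} {e : V d} (he : 0 < e 0) : dir ρ e = nrm (prj (dil ρ e)) := by
  rw [dir, prj, dil_zero, nrm_smul (inv_pos.2 he)]

theorem dir_unit {ρ : ℝ} {e : V d} (he : 0 < e 0) : ‖dir ρ e‖ = 1 := by
  refine nrm_unit fun h => ?_
  have := dil_zero ρ e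
  rw [h] at this
  simp at this
  linarith

theorem dir_near {ρ : ℝ} (h0 : 0 ≤ ρ) {e : V d} (he : ‖e‖ = 1)
    (hc : ‖e - e0 d‖ ≤ 1 / 8) : ‖dir ρ e - e0 d‖ ≤ ρ := by
  have hp : 0 < e 0 := by linarith [unit_zero he hc]
  have h1 : (prj (dil ρ e)) 0 = 1 := prj_apply_zero (by rw [dil_zero]; exact hp.ne')
  have h2 : ‖nrm (prj (dil ρ e)) - nrm (e0 d)‖ ≤ 2 * ‖prj (dil ρ e) - e0 d‖ :=
    nrm_lip (norm_ge_of_zero h1) norm_e0.ge
  rw [nrm_of_unit norm_e0, ← dir_eq hp, ← dil_prj, dil_prj_sub hp.ne', norm_smul,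
    Real.norm_of_nonneg h0] at h2
  have h3 := prj_sub_e0 he hc
  nlinarith

theorem dir_zero {ρ : ℝ} (h0 : 0 ≤ ρ) (h1 : ρ ≤ 1) {e : V d} (he : ‖e‖ = 1)
    (hc : ‖e - e0 d‖ ≤ 1 / 8) : 9 / 10 ≤ (dir ρ e) 0 := by
  have hp : 0 < e 0 := by linarith [unit_zero he hc]
  have h2 : (prj (dil ρ e)) 0 = 1 := prj_apply_zero (by rw [dil_zero]; exact hp.ne')
  have h3 : (dir ρ e) 0 = ‖prj (dil ρ e)‖⁻¹ := by
    rw [dir_eq hp, nrm]; simp [h2]
  have h5 : ‖prj (dil ρ e) - e0 d‖ ≤ 3 / 10 := by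
    rw [← dil_prj, dil_prj_sub hp.ne', norm_smul, Real.norm_of_nonneg h0]
    have h3 := prj_sub_e0 he hc
    nlinarith [norm_nonneg (prj e - e0 d)]
  have h6 : ‖prj (dil ρ e)‖ ^ 2 = 1 + ‖prj (dil ρ e) - e0 d‖ ^ 2 := by
    have h7 : inner ℝ (e0 d) (prj (dil ρ e) - e0 d) = 0 := by
      rw [real_inner_comm, inner_e0]; simp [h2, e0]
    have h8 := norm_add_sq_real (e0 d) (prj (dil ρ e) - e0 d)
    rw [h7, add_sub_cancel, norm_e0] at h8
    linarith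
  have h7 : ‖prj (dil ρ e)‖ ≤ 10 / 9 := by
    have h8 : ‖prj (dil ρ e)‖ ^ 2 ≤ (10 / 9) ^ 2 := by
      rw [h6]
      have : ‖prj (dil ρ e) - e0 d‖ ^ 2 ≤ (3 / 10) ^ 2 := by gcongr
      linarith
    exact le_of_sq_le_sq h8 (by norm_num)
  have h9 : 1 ≤ ‖prj (dil ρ e)‖ := norm_ge_of_zero h2
  rw [h3, le_inv_comm₀ (by norm_num) (by linarith)]
  linarith

theorem dir_sep {ρ : ℝ} (h0 : 0 ≤ ρ) (h1 : ρ ≤ 1) {e e' : V d} (he : ‖e‖ = 1)
    (hc : ‖e - e0 d‖ ≤ 1 / 8) (he' : ‖e'‖ = 1) (hc' : ‖e' - e0 d‖ ≤ 1 / 8) :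
    ρ / 8 * ‖e - e'‖ ≤ ‖dir ρ e - dir ρ e'‖ := by
  have hp : 0 < e 0 := by linarith [unit_zero he hc]
  have hp' : 0 < e' 0 := by linarith [unit_zero he' hc']
  have h2 := prj_lip (dir_unit (ρ := ρ) hp') (dir_zero h0 h1 he hc) (dir_zero h0 h1 he' hc')
  have h3 : ∀ e : V d, 0 < e 0 → prj (dir ρ e) = dil ρ (prj e) := by
    intro e hp
    rw [dil_prj]
    have hne : dil ρ e ≠ 0 := by
      intro h
      have := dil_zero ρ e
      rw [h] at this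
      simp at this
      linarith
    have hn : ‖dil ρ e‖ ≠ 0 := norm_ne_zero_iff.2 hne
    have h5 : (dir ρ e) 0 = ‖dil ρ e‖⁻¹ * e 0 := by
      rw [dir, nrm]; simp [dil_zero]
    rw [prj, prj, h5, dir, nrm, smul_smul, dil_zero]
    congr 1
    field_simp
  rw [h3 e hp, h3 e' hp'] at h2
  have h4 : dil ρ (prj e) - dil ρ (prj e') = ρ • (prj e - prj e') := by
    have := dil_prj_sub (ρ := ρ) hp.ne'
    have h' := dil_prj_sub (ρ := ρ) hp'.ne'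
    calc dil ρ (prj e) - dil ρ (prj e') = (dil ρ (prj e) - e0 d) - (dil ρ (prj e') - e0 d) := by
          abel
      _ = ρ • (prj e - prj e') := by rw [this, h', ← smul_sub]; congr 1; abel
  rw [h4, norm_smul, Real.norm_of_nonneg h0] at h2
  have h5 : ‖nrm (prj e) - nrm (prj e')‖ ≤ 2 * ‖prj e - prj e'‖ :=
    nrm_lip (norm_ge_of_zero (prj_apply_zero hp.ne')) (norm_ge_of_zero (prj_apply_zero hp'.ne'))
  rw [nrm_prj hp he, nrm_prj hp' he'] at h5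
  have h6 := mul_le_mul_of_nonneg_left h5 (by positivity : 0 ≤ ρ / 8)
  have h7 := norm_nonneg (dir ρ e - dir ρ e')
  nlinarith

/-- points of the dilated tube -/
theorem dil_tube {ρ δ : ℝ} (h0 : 0 < ρ) (h1 : ρ ≤ 1) (hδ : 0 < δ) (hδ1 : δ < 1) {e z : V d}
    (he : ‖e‖ = 1) (hc : ‖e - e0 d‖ ≤ 1 / 8) {S : ℝ} (hS : |S| ≤ 1) (hz : ‖z - S • e‖ ≤ 3 * δ) :
    ∃ (T : ℝ) (W : V d), dil ρ z = T • dir ρ e + W ∧ |T| ≤ 5 ∧ ‖W‖ ≤ 7 * (ρ * δ) := by
  have hp := unit_zero he hc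
  have hp0 : 0 < e 0 := by linarith
  set w := z - S • e with hw
  have hw0 : |w 0 / e 0| ≤ 4 * δ := by
    rw [abs_div, abs_of_pos hp0, div_le_iff₀ hp0]
    have := (abs_apply_le w 0).trans hz
    nlinarith
  set S' : ℝ := S + w 0 / e 0 with hS'
  have hS'n : |S'| ≤ 5 := by
    refine (abs_add_le _ _).trans ?_
    linarith
  have hzs : z - S' • e = w - (w 0 / e 0) • e := by
    rw [hS', hw]; module
  have hperp : (z - S' • e) 0 = 0 := by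
    have h3 : w 0 / e 0 * e 0 = w 0 := div_mul_cancel₀ _ hp0.ne'
    rw [hzs]
    simp only [PiLp.sub_apply, PiLp.smul_apply, smul_eq_mul, h3, sub_self]
  have hzsn : ‖z - S' • e‖ ≤ 7 * δ := by
    rw [hzs]
    calc ‖w - (w 0 / e 0) • e‖ ≤ ‖w‖ + ‖(w 0 / e 0) • e‖ := norm_sub_le _ _
      _ ≤ 3 * δ + 4 * δ := by
          rw [norm_smul, he, mul_one, Real.norm_eq_abs]
          gcongr
      _ = 7 * δ := by ring
  have hne : dil ρ e ≠ 0 := by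
    intro h
    have := dil_zero ρ e
    rw [h] at this
    simp at this
    linarith
  have hn : ‖dil ρ e‖ ≠ 0 := norm_ne_zero_iff.2 hne
  refine ⟨S' * ‖dil ρ e‖, dil ρ (z - S' • e), ?_, ?_, ?_⟩
  · have h6 : dil ρ (z - S' • e) = dil ρ z - S' • dil ρ e := by rw [map_sub, map_smul]
    rw [dir, nrm, smul_smul, mul_assoc, mul_inv_cancel₀ hn, mul_one, h6]
    abel
  · rw [abs_mul, abs_of_nonneg (norm_nonneg _)]
    have := dil_norm_le h0.le h1 e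
    rw [he] at this
    nlinarith [abs_nonneg S', norm_nonneg (dil ρ e)]
  · rw [dil_perp ρ hperp, norm_smul, Real.norm_of_nonneg h0.le]
    nlinarith

/-- transitivity of rotations -/
theorem rot_exists {x y : V d} (hx : ‖x‖ = 1) (hy : ‖y‖ = 1) :
    ∃ U : V d ≃ₗᵢ[ℝ] V d, U x = y := by
  refine ⟨(Submodule.span ℝ {x - y})ᗮ.reflection, ?_⟩
  exact Submodule.reflection_sub (hx.trans hy.symm)

end Pool.Agent.H222.KW
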