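import Pool.Agent.H222.KW.Caps

/-!
Localisation of the centres.
-/

open MeasureTheory Set Metric Filter
open scoped ENNReal NNReal Topology

namespace Pool.Agent.H222.KW

variable {d : ℕ} {ι : Type} [Fintype ι]

theorem Nq_part {κ : Type} [Fintype κ] [DecidableEq κ] (c : ι → κ) {q δ : ℝ} (hq : 1 ≤ q)
    (a e : ι → V d) {M : ℕ}
    (hM : ∀ x, ∃ S : Finset κ, S.card ≤ M ∧ ∀ i, x ∈ tube δ (a i) (e i) → c i ∈ S) :
    Nq q δ a e ≤ (M : ℝ≥0∞) ^ (q - 1) * ∑ f : κ, Nq q δ (fun i : {i // c i = f} => a i)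
      (fun i : {i // c i = f} => e i) := by
  classical
  have hq0 : 0 < q := by linarith
  have hsum : ∀ x, mult δ a e x =
      ∑ f : κ, mult δ (fun i : {i // c i = f} => a i) (fun i : {i // c i = f} => e i) x := by
    intro x
    unfold mult
    exact (Fintype.sum_fiberwise c _).symm
  have hpt : ∀ x, (mult δ a e x) ^ q ≤ (M : ℝ≥0∞) ^ (q - 1) *
      ∑ f : κ, (mult δ (fun i : {i // c i = f} => a i) (fun i : {i // c i = f} => e i) x) ^ q := by
    intro x
    obtain ⟨S, hS1, hS2⟩ := hM x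
    have h0 : ∀ f ∉ S, mult δ (fun i : {i // c i = f} => a i) (fun i : {i // c i = f} => e i) x
        = 0 := by
      intro f hf
      unfold mult
      refine Finset.sum_eq_zero fun i _ => ?_
      refine indicator_of_notMem (fun hx => hf ?_) _
      rw [← i.2]
      exact hS2 i hx
    rw [hsum, ← Finset.sum_subset (Finset.subset_univ S) fun f _ hf => h0 f hf]
    calc (∑ f ∈ S, mult δ (fun i : {i // c i = f} => a i) (fun i : {i // c i = f} => e i) x) ^ q
        ≤ (S.card : ℝ≥0∞) ^ (q - 1) * ∑ f ∈ S, (mult δ (fun i : {i // c i = f} => a i)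
          (fun i : {i // c i = f} => e i) x) ^ q := ENNReal.rpow_sum_le_const_mul_sum_rpow _ _ hq
      _ ≤ (M : ℝ≥0∞) ^ (q - 1) * ∑ f : κ, (mult δ (fun i : {i // c i = f} => a i)
          (fun i : {i // c i = f} => e i) x) ^ q := by
          refine mul_le_mul' (ENNReal.rpow_le_rpow (by exact_mod_cast hS1) (by linarith)) ?_
          exact Finset.sum_le_sum_of_subset (Finset.subset_univ S)
  calc Nq q δ a e ≤ ∫⁻ x, (M : ℝ≥0∞) ^ (q - 1) *
      ∑ f : κ, (mult δ (fun i : {i // c i = f} => a i) (fun i : {i // c i = f} => e i) x) ^ q :=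
        lintegral_mono hpt
    _ = _ := by
        rw [lintegral_const_mul _ (Finset.measurable_fun_sum _ fun f _ =>
          (mult_meas _ _ _).pow_const q),
          lintegral_finsetSum _ fun f _ => (mult_meas _ _ _).pow_const q]
        rfl

theorem tube_trans (v : V d) (δ : ℝ) (a e x : V d) :
    v + x ∈ tube δ (v + a) e ↔ x ∈ tube δ a e := by
  show (|inner ℝ (v + x - (v + a)) e| ≤ 1 / 2 ∧
    ‖(v + x - (v + a)) - (inner ℝ (v + x - (v + a)) e : ℝ) • e‖ ≤ δ) ↔ _
  have : v + x - (v + a) = x - a := by abel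
  rw [this]
  exact Iff.rfl

theorem Nq_trans (v : V d) (q δ : ℝ) (a e : ι → V d) :
    Nq q δ (fun i => v + a i) e = Nq q δ a e := by
  unfold Nq
  rw [← lintegral_add_left_eq_self (μ := (volume : Measure (V d)))
    (fun x => (mult δ (fun i => v + a i) e x) ^ q) v]
  refine lintegral_congr fun x => ?_
  congr 1
  unfold mult
  refine Finset.sum_congr rfl fun i _ => ?_
  by_cases hx : x ∈ tube δ (a i) (e i)
  · rw [indicator_of_mem hx, indicator_of_mem ((tube_trans v δ _ _ x).2 hx)]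
  · rw [indicator_of_notMem hx, indicator_of_notMem fun h => hx ((tube_trans v δ _ _ x).1 h)]

theorem sum_pow_le {ι : Type*} {β : ℝ} (hβ : 1 ≤ β) (I : Finset ι) (f : ι → ℝ≥0∞) :
    ∑ i ∈ I, f i ^ β ≤ (∑ i ∈ I, f i) ^ β := by
  classical
  induction I using Finset.induction_on with
  | empty => simp
  | insert i s hi ih =>
    rw [Finset.sum_insert hi, Finset.sum_insert hi]
    exact (add_le_add le_rfl ih).trans (ENNReal.add_rpow_le_rpow_add _ _ hβ)

/-- directions in the cap, centres in a ball -/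
def CapB (d : ℕ) : Set (V d × V d) := {z | ‖z.1‖ ≤ d + 1 ∧ ‖z.2 - e0 d‖ ≤ 1 / 8}

theorem tube_norm_le {δ : ℝ} (h1 : δ < 1) {a e x : V d} (he : ‖e‖ = 1)
    (hx : x ∈ tube δ a e) : ‖x - a‖ ≤ 2 := by
  obtain ⟨hx1, hx2⟩ := hx
  calc ‖x - a‖ = ‖((x - a) - (inner ℝ (x - a) e : ℝ) • e) +
        (inner ℝ (x - a) e : ℝ) • e‖ := by rw [sub_add_cancel]
    _ ≤ ‖(x - a) - (inner ℝ (x - a) e : ℝ) • e‖ +
        ‖(inner ℝ (x - a) e : ℝ) • e‖ := norm_add_le _ _
    _ ≤ δ + 1 / 2 := by
        rw [norm_smul, he, mul_one, Real.norm_eq_abs]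
        gcongr
    _ ≤ 2 := by linarith

theorem localise {q : ℝ} (hq : 1 ≤ q) (hβ : 1 ≤ q - 1 / (d : ℝ)) (K : ℝ≥0∞) {δ : ℝ}
    (h1 : δ < 1) (h : PBat (CapB d) q K δ) :
    PBat (Cap d) q (((5 ^ (d + 1) : ℕ) : ℝ≥0∞) ^ (q - 1) * K) δ := by
  classical
  intro ι _ a e he hs hc
  set κ : ι → (Fin (d + 1) → ℤ) := fun i j => ⌊a i j⌋ with hκ
  set I : Finset (Fin (d + 1) → ℤ) := Finset.univ.image κ with hI
  set c : ι → I := fun i => ⟨κ i, Finset.mem_image_of_mem κ (Finset.mem_univ i)⟩ with hcd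
  have hpart := Nq_part c (δ := δ) hq a e (M := 5 ^ (d + 1)) (by
    intro x
    refine ⟨Finset.univ.filter (fun z : I => (z : Fin (d + 1) → ℤ) ∈
      Fintype.piFinset (fun j => Finset.Icc (⌊x j⌋ - 2) (⌊x j⌋ + 2))), ?_, ?_⟩
    · have hle : (Finset.univ.filter (fun z : I => (z : Fin (d + 1) → ℤ) ∈
          Fintype.piFinset (fun j => Finset.Icc (⌊x j⌋ - 2) (⌊x j⌋ + 2)))).card ≤
          (Fintype.piFinset (fun j => Finset.Icc (⌊x j⌋ - 2) (⌊x j⌋ + 2))).card := by
        refine Finset.card_le_card_of_injOn (fun z => (z : Fin (d + 1) → ℤ)) ?_ ?_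
        · intro z hz
          exact (Finset.mem_filter.1 hz).2
        · intro z _ w _ hzw
          exact Subtype.ext hzw
      refine hle.trans ?_
      rw [Fintype.card_piFinset]
      simp only [Int.card_Icc]
      have : ∀ j : Fin (d + 1), (⌊x j⌋ + 2 + 1 - (⌊x j⌋ - 2)).toNat = 5 := fun j => by
        have : ⌊x j⌋ + 2 + 1 - (⌊x j⌋ - 2) = 5 := by ring
        rw [this]; rfl
      simp only [this, Finset.prod_const, Finset.card_univ, Fintype.card_fin]
      exact le_rfl
    · intro i hx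
      rw [Finset.mem_filter, Fintype.mem_piFinset]
      refine ⟨Finset.mem_univ _, fun j => ?_⟩
      have h2 := tube_norm_le h1 (he i) hx
      have h3 : |x j - a i j| ≤ 2 := (abs_apply_le (x - a i) j).trans h2
      rw [abs_le] at h3
      show ⌊a i j⌋ ∈ _
      rw [Finset.mem_Icc]
      constructor
      · have : ⌊x j⌋ - 2 = ⌊x j - 2⌋ := by
          rw [Int.floor_sub_ofNat]
        rw [this]
        exact Int.floor_le_floor (by linarith)
      · have : ⌊x j⌋ + 2 = ⌊x j + 2⌋ := by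
          rw [Int.floor_add_ofNat]
        rw [this]
        exact Int.floor_le_floor (by linarith))
  refine hpart.trans ?_
  have hpiece : ∀ z : I, Nq q δ (fun i : {i // c i = z} => a i)
      (fun i : {i // c i = z} => e i) ≤ K * ENNReal.ofReal δ ^ d *
      (Fintype.card {i // c i = z} : ℝ≥0∞) ^ (q - 1 / (d : ℝ)) := by
    intro z
    set v : V d := WithLp.toLp 2 (fun j => -((z : Fin (d + 1) → ℤ) j : ℝ)) with hv
    rw [← Nq_trans v]
    refine h {i // c i = z} (fun i => v + a i) (fun i => e i) (fun i => he i)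
      (fun i j hij => hs i j fun h => hij (Subtype.ext h)) fun i => ⟨?_, hc i⟩
    show ‖v + a i‖ ≤ d + 1
    refine (norm_le_sum _).trans ?_
    calc ∑ j, |(v + a i) j| ≤ ∑ _j : Fin (d + 1), (1 : ℝ) := by
          refine Finset.sum_le_sum fun j _ => ?_
          have hz : (z : Fin (d + 1) → ℤ) j = ⌊a i j⌋ :=
            (congrFun (congrArg Subtype.val i.2) j).symm
          have h4 : (v + a i) j = a i j - ((z : Fin (d + 1) → ℤ) j : ℝ) := by
            simp [hv]; ring
          rw [h4, hz, abs_le]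
          have h6 := Int.floor_le (a i j)
          have h7 := Int.lt_floor_add_one (a i j)
          constructor <;> linarith
      _ = d + 1 := by simp
  calc (((5 ^ (d + 1) : ℕ) : ℝ≥0∞)) ^ (q - 1) * ∑ z : I, Nq q δ (fun i : {i // c i = z} => a i)
        (fun i : {i // c i = z} => e i)
      ≤ (((5 ^ (d + 1) : ℕ) : ℝ≥0∞)) ^ (q - 1) * ∑ z : I, K * ENNReal.ofReal δ ^ d *
        (Fintype.card {i // c i = z} : ℝ≥0∞) ^ (q - 1 / (d : ℝ)) := by
        gcongr with z _
        exact hpiece z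
    _ = (((5 ^ (d + 1) : ℕ) : ℝ≥0∞)) ^ (q - 1) * K * ENNReal.ofReal δ ^ d *
        ∑ z : I, (Fintype.card {i // c i = z} : ℝ≥0∞) ^ (q - 1 / (d : ℝ)) := by
        rw [← Finset.mul_sum]; ring
    _ ≤ (((5 ^ (d + 1) : ℕ) : ℝ≥0∞)) ^ (q - 1) * K * ENNReal.ofReal δ ^ d *
        (∑ z : I, (Fintype.card {i // c i = z} : ℝ≥0∞)) ^ (q - 1 / (d : ℝ)) := by
        gcongr
        exact sum_pow_le hβ _ _
    _ = _ := by
        have h8 : ∑ z : I, (Fintype.card {i // c i = z} : ℝ≥0∞) = (Fintype.card ι : ℝ≥0∞) := by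
          have h9 := Fintype.sum_fiberwise c (fun _ => (1 : ℝ≥0∞))
          simp only [Finset.sum_const, Finset.card_univ, nsmul_eq_mul, mul_one] at h9
          exact h9
        rw [h8]

end Pool.Agent.H222.KW
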