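import Pool.Agent.H222.KW.Body
import Pool.Agent.H222.KW.Caps

/-!
The universal body.
-/

open MeasureTheory Set Metric Filter
open scoped ENNReal NNReal Topology ContDiff

namespace Pool.Agent.H222.KW

variable {d : ℕ}

/-- families of `N` tubes with directions in the cap -/
def XX (d N : ℕ) (s : ℝ) : Set ((Fin N → V d) × (Fin N → V d)) :=
  {z | (∀ i, ‖z.2 i‖ = 1) ∧ (∀ i, ‖z.2 i - e0 d‖ ≤ 1 / 8) ∧ Sep s z.2}

/-- a countable dense sequence of families -/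
theorem dense_families (d : ℕ) : ∃ F : ℕ → CapFam d, ∀ G : CapFam d, ∃ j,
    ∃ σ : Fin G.N ≃ Fin (F j).N, G.δ / 2 ≤ (F j).δ ∧ (F j).δ ≤ G.δ ∧
      ∀ i, ‖G.a i - (F j).a (σ i)‖ ≤ (F j).δ / 2 ∧ ‖G.e i - (F j).e (σ i)‖ ≤ (F j).δ / 2 := by
  classical
  have hS : ∀ p : ℕ × {s : ℚ // 0 < (s : ℝ) ∧ (s : ℝ) < 1}, ∃ S : Set (XX d p.1 (p.2 : ℚ)),
      S.Countable ∧ Dense S := fun p => TopologicalSpace.exists_countable_dense _
  choose S hSc hSd using hS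
  have hcount : ∀ p, Countable (S p) := fun p => (hSc p).to_subtype
  set J := Σ p : ℕ × {s : ℚ // 0 < (s : ℝ) ∧ (s : ℝ) < 1}, S p with hJ
  have hJc : Countable J := inferInstance
  have hJn : Nonempty J := by
    set p0 : ℕ × {s : ℚ // 0 < (s : ℝ) ∧ (s : ℝ) < 1} :=
      (0, ⟨1 / 2, by norm_num, by norm_num⟩) with hp0
    have hne : Nonempty (XX d p0.1 (p0.2 : ℚ)) :=
      ⟨⟨(fun _ => 0, fun _ => 0), ⟨fun i => i.elim0, fun i => i.elim0, fun i => i.elim0⟩⟩⟩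
    obtain ⟨w, hw⟩ := (hSd p0).nonempty
    exact ⟨⟨p0, ⟨w, hw⟩⟩⟩
  obtain ⟨s, hs⟩ := exists_surjective_nat J
  let toFam : J → CapFam d := fun z =>
    { δ := ((z.1.2 : ℚ) : ℝ)
      δ0 := z.1.2.2.1
      δ1 := z.1.2.2.2
      N := z.1.1
      a := z.2.1.1.1
      e := z.2.1.1.2
      he := z.2.1.2.1
      hc := z.2.1.2.2.1
      hs := z.2.1.2.2.2 }
  refine ⟨fun j => toFam (s j), fun G => ?_⟩
  have hδ0 := G.δ0
  have hδ1 := G.δ1
  obtain ⟨r, hr1, hr2⟩ := exists_rat_btwn (show G.δ / 2 < G.δ by linarith)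
  set p : ℕ × {s : ℚ // 0 < (s : ℝ) ∧ (s : ℝ) < 1} :=
    (G.N, ⟨r, by linarith, by linarith⟩) with hp
  have hGX : (G.a, G.e) ∈ XX d G.N (r : ℝ) :=
    ⟨G.he, G.hc, fun i j hij => hr2.le.trans (G.hs i j hij)⟩
  have hr0 : (0 : ℝ) < (r : ℝ) / 2 := by linarith
  obtain ⟨w, hwS, hw⟩ := Metric.dense_iff.1 (hSd p) ⟨(G.a, G.e), hGX⟩ ((r : ℝ) / 2) hr0
  obtain ⟨j, hj⟩ := hs ⟨p, ⟨w, hw⟩⟩
  refine ⟨j, ?_⟩
  suffices H : ∀ z : J, z = ⟨p, ⟨w, hw⟩⟩ → ∃ σ : Fin G.N ≃ Fin (toFam z).N,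
      G.δ / 2 ≤ (toFam z).δ ∧ (toFam z).δ ≤ G.δ ∧
      ∀ i, ‖G.a i - (toFam z).a (σ i)‖ ≤ (toFam z).δ / 2 ∧
        ‖G.e i - (toFam z).e (σ i)‖ ≤ (toFam z).δ / 2 from H _ hj
  rintro _ rfl
  refine ⟨Equiv.refl _, hr1.le, hr2.le, fun i => ?_⟩
  rw [mem_ball, Subtype.dist_eq, Prod.dist_eq, max_lt_iff, dist_comm,
    dist_comm (w.1.2)] at hwS
  have h1 := (dist_le_pi_dist G.a w.1.1 i).trans hwS.1.le
  have h2 := (dist_le_pi_dist G.e w.1.2 i).trans hwS.2.le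
  rw [dist_eq_norm] at h1 h2
  exact ⟨h1, h2⟩

theorem const_aux (L : ℕ) {c0 C q : ℝ} (hc1 : 1 ≤ c0) (hC : 0 ≤ C) (hq : 1 ≤ q) :
    (L : ℝ≥0∞) ^ q * (ENNReal.ofReal c0 * ENNReal.ofReal (C ^ q)) ≤
      ENNReal.ofReal ((L * c0 * C) ^ q) := by
  rw [Real.mul_rpow (by positivity) hC, Real.mul_rpow (by positivity) (by positivity),
    ENNReal.ofReal_mul (by positivity), ENNReal.ofReal_mul (by positivity),
    ← ENNReal.ofReal_rpow_of_nonneg (Nat.cast_nonneg L) (by linarith : (0 : ℝ) ≤ q),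
    ENNReal.ofReal_natCast, mul_assoc]
  gcongr
  calc c0 = c0 ^ (1 : ℝ) := (Real.rpow_one _).symm
    _ ≤ c0 ^ q := Real.rpow_le_rpow_of_exponent_le hc1 hq

theorem main (hd : 1 ≤ d) : ∃ A : ℝ, 0 < A ∧ ∀ (m : ℕ) (ε : ℝ), 0 < ε →
    ∃ (K : Set (V d)) (P : V d → V d), IsCompact K ∧ Convex ℝ K ∧
      ContDiff ℝ ∞ P ∧
      (∀ k ≤ m, ∀ x, ‖iteratedFDeriv ℝ k (fun y => P y - (1 / 2 : ℝ) • y) x‖ ≤ ε) ∧
      (∀ e, ‖e‖ = 1 → P e ∈ K ∧ (∀ y ∈ K, y ≠ P e → inner ℝ y e < inner ℝ (P e) e) ∧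
        P e - P (-e) = e) ∧
      ∀ q : ℝ, 1 ≤ q → ∀ C : ℝ, 0 ≤ C →
        TB d {z | z.1 = (1 / 2 : ℝ) • (P z.2 + P (-z.2))} q C → TB d univ q (A * C) := by
  obtain ⟨L, hL1, hL⟩ := cap_to_all hd
  obtain ⟨F, hF⟩ := dense_families d
  have hd' : (1 : ℝ) ≤ d := by exact_mod_cast hd
  have hL' : (1 : ℝ) ≤ L := by exact_mod_cast hL1
  set c0 : ℝ := 8 ^ d * (12288 * d) with hc0
  have hc1 : 1 ≤ c0 := by
    have : (1 : ℝ) ≤ 8 ^ d := one_le_pow₀ (by norm_num)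
    nlinarith
  refine ⟨L * c0, by positivity, fun m ε hε => ?_⟩
  obtain ⟨Θ, l, U, hs, hc, hodd, hl0, hl1, hloc⟩ :=
    theta_exists hd F (lmax := 1 / (6144 * d)) (by positivity)
  obtain ⟨η, hη0, hη1, K, P, hK1, hK2, hP1, hP2, hP3, hP4⟩ := body_exists hs hc hodd m hε
  refine ⟨K, P, hK1, hK2, hP1, hP2, hP3, fun q hq C hC hTB => ?_⟩
  have hPB := TB_to_PB hd hq hC hTB
  refine PB_to_TB hd hq (by positivity) ?_
  have hcap : PB (Cap d) q (ENNReal.ofReal c0 * ENNReal.ofReal (C ^ q)) := by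
    intro δ h0 h1 ι _ a e he hsep hcp
    -- the family as a structure
    set τ := (Fintype.equivFin ι).symm with hτ
    set G : CapFam d := ⟨δ, h0, h1, Fintype.card ι, fun i => a (τ i), fun i => e (τ i),
      fun i => he _, fun i => hcp _, fun i j hij => hsep _ _ fun h => hij (τ.injective h)⟩ with hG
    have h3 : Nq q δ (fun i => a (τ i)) (fun i => e (τ i)) = Nq q δ a e := by
      unfold Nq mult
      refine lintegral_congr fun x => ?_
      congr 1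
      exact τ.sum_comp fun i => (tube δ (a i) (e i)).indicator (fun _ => (1 : ℝ≥0∞)) x
    obtain ⟨j, σ, hj1, hj2, hj3⟩ := hF G
    have hlj : 0 < η * l j := mul_pos hη0 (hl0 j)
    have hlj1 : η * l j ≤ 1 / (6144 * d) :=
      (mul_le_of_le_one_left (hl0 j).le hη1).trans (hl1 j)
    have hrδ : 0 < rr j * (F j).δ := mul_pos (rr_pos j) (F j).δ0
    have hrδ1 : rr j * (F j).δ < 1 := by
      have := rr_le j
      have := (F j).δ1
      have := (F j).δ0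
      nlinarith
    have hl6 : η * l j ≤ 1 / 6144 := by
      refine hlj1.trans ?_
      apply one_div_le_one_div_of_le (by norm_num)
      linarith
    have h2 := embed hd (rr_pos j) (rr_le j) (F j).δ0 (F j).δ1 (δ₀ := δ) (l := η * l j)
      hlj hlj1 (a := fun i => (F j).a (σ i)) (e := fun i => (F j).e (σ i))
      (a' := fun i => a (τ i)) (e' := fun i => e (τ i))
      (fun i => (F j).he _) (fun i => (F j).hc _)
      (fun i i' hii => (F j).hs _ _ fun h => hii (σ.injective h))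
      (fun i x hx => tube_near (δ := (F j).δ) (by
        have : δ / 2 ≤ (F j).δ := hj1
        linarith) (hj3 i).1 (hj3 i).2 hx)
      (U j) (fun g => (1 / 2 : ℝ) • (P g + P (-g)))
      (by
        intro i g hg hgn
        have h3 := hloc j (σ i) g hgn
        have h4 := hP4 g hg (l j • U j (dil (rr j) ((F j).a (σ i)))) (by
          filter_upwards [h3] with y hy
          rw [hy, inner_smul_left]; simp)
        show (1 / 2 : ℝ) • (P g + P (-g)) = _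
        rw [h4, smul_smul]) hq (hPB (8 * (η * l j) * (rr j * (F j).δ)) (by positivity)
          (by nlinarith))
    rw [h3] at h2
    refine h2.trans ?_
    rw [Fintype.card_fin]
    have h5 : (F j).δ ≤ δ := hj2
    gcongr
  intro δ h0 h1
  have h6 := hL q hq _ δ (hcap δ h0 h1)
  intro ι _ a e he hsep hA
  refine (h6 ι a e he hsep hA).trans ?_
  have h7 := const_aux L hc1 hC hq
  gcongr

end Pool.Agent.H222.KW
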