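import Pool.Agent.H222.KW.CkNorm
import Pool.Graph.R_pool_sql_team_seeded_1acbe0a2.Results.MP_850839_an.LossRemoval

/-!
# MP_850839: the conjecture is an `o(1/k)` bound for the loss of `C^k` families of tubes

Consider the families of `δ`-tubes in `ℝ^n` with `δ`-separated orientations whose centres are
`Y e`, `e` the orientation, for a `C^∞` map `Y` whose derivatives of order `≤ k` are bounded by `1`.

1. If the inequality of the problem with exponent `q ≥ n/(n-1)` holds for all these families with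
   the loss `δ^(-τ)` and a constant that does not depend on `Y`, then it holds for ALL families of
   `δ`-tubes with `δ`-separated orientations with the loss `δ^(-(k+1)τ)`.
2. Let `q₀ ≥ n/(n-1)`.  The inequality holds without loss for all families and all `q > q₀` if and
   only if for every `ε > 0` there is some `k ≥ 1` such that it holds at `q₀` with the loss
   `δ^(-ε/k)` for the `C^k` families above.  For `q₀ = n/(n-1)` the left side is the conjecture.

It is known that the `C^k` families satisfy the inequality with the loss `δ^(-1/(qk))`.  So the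
conjecture is equivalent to the improvement of this bound from `O(1/k)` to `o(1/k)`, for some
sequence of `k`.
-/

open MeasureTheory Set
open scoped ENNReal ContDiff

namespace Pool.Agent.Results.MP_850839_an.SmoothCentresLoss

/-- The `δ`-tube with centre `a` and orientation `e`: the cylinder of length `1` and radius `δ`
with centre `a` whose axis has the direction `e`. -/
def tube {n : ℕ} (δ : ℝ) (a e : EuclideanSpace ℝ (Fin n)) : Set (EuclideanSpace ℝ (Fin n)) :=
  {y | |inner ℝ (y - a) e| ≤ 1 / 2 ∧ ‖(y - a) - (inner ℝ (y - a) e : ℝ) • e‖ ≤ δ}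

/-- The inequality of the problem for the exponent `q` and the width `δ`, with the number `K` in
place of `C_q`, for all finite families of `δ`-tubes with `δ`-separated orientations whose pairs
(centre, orientation) belong to `S`. -/
def Holds (n : ℕ) (S : Set (EuclideanSpace ℝ (Fin n) × EuclideanSpace ℝ (Fin n)))
    (q δ K : ℝ) : Prop :=
  ∀ (ι : Type) [Fintype ι] (a e : ι → EuclideanSpace ℝ (Fin n)), (∀ i, ‖e i‖ = 1) →
    (∀ i j, i ≠ j → δ ≤ ‖e i - e j‖) → (∀ i, (a i, e i) ∈ S) →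
    eLpNorm (fun x => ∑ i, (tube δ (a i) (e i)).indicator (fun _ => (1 : ℝ)) x)
      (ENNReal.ofReal q) volume ≤
    ENNReal.ofReal (K * δ ^ (((n : ℝ) - 1) / q) *
      (Fintype.card ι : ℝ) ^ (1 - 1 / (q * ((n : ℝ) - 1))))

/-- The inequality with the loss `δ^(-τ)` for all families of tubes. -/
def AllTubes (n : ℕ) (q τ : ℝ) : Prop :=
  ∃ C : ℝ, ∀ δ : ℝ, 0 < δ → δ < 1 → Holds n univ q δ (C * δ ^ (-τ))

/-- The inequality with the loss `δ^(-τ)` for the families of tubes whose centres are a smooth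
function `Y` of the orientation with derivatives of order `≤ k` bounded by `1`; the constant does
not depend on `Y`. -/
def SmoothTubes (n k : ℕ) (q τ : ℝ) : Prop :=
  ∃ C : ℝ, ∀ Y : EuclideanSpace ℝ (Fin n) → EuclideanSpace ℝ (Fin n), ContDiff ℝ ∞ Y →
    (∀ j ≤ k, ∀ x, ‖iteratedFDeriv ℝ j Y x‖ ≤ 1) →
    ∀ δ : ℝ, 0 < δ → δ < 1 → Holds n {z | z.1 = Y z.2} q δ (C * δ ^ (-τ))

theorem holds_iff {d : ℕ} {S : Set (EuclideanSpace ℝ (Fin (d + 1)) × EuclideanSpace ℝ (Fin (d + 1)))}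
    {q δ K : ℝ} : Holds (d + 1) S q δ K ↔ Pool.Agent.H222.KW.Hat d S q δ K := by
  have hcast : ((d + 1 : ℕ) : ℝ) - 1 = d := by push_cast; ring
  unfold Holds Pool.Agent.H222.KW.Hat
  rw [hcast]
  exact Iff.rfl

theorem holds_anti {n : ℕ} {S T : Set (EuclideanSpace ℝ (Fin n) × EuclideanSpace ℝ (Fin n))}
    (hST : S ⊆ T) {q δ K : ℝ} (h : Holds n T q δ K) : Holds n S q δ K :=
  fun ι _ a e he hs hA => h ι a e he hs fun i => hST (hA i)

theorem holds_lib {n : ℕ} {q δ K : ℝ} : Holds n univ q δ K ↔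
    Pool.Agent.Results.MP_850839_an.LossRemoval.Holds n q δ K :=
  ⟨fun h ι _ a e he hs => h ι a e he hs fun _ => mem_univ _,
    fun h ι _ a e he hs _ => h ι a e he hs⟩

/-- **The loss for `C^k` families controls the loss for all families of tubes, and the conjecture
is equivalent to an `o(1/k)` bound for the loss of `C^k` families.** -/
theorem result (n : ℕ) (hn : 3 ≤ n) :
    (∀ (k : ℕ) (q τ : ℝ), (n : ℝ) / ((n : ℝ) - 1) ≤ q →
      SmoothTubes n k q τ → AllTubes n q (((k : ℝ) + 1) * τ)) ∧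
    (∀ q₀ : ℝ, (n : ℝ) / ((n : ℝ) - 1) ≤ q₀ →
      ((∀ q : ℝ, q₀ < q → AllTubes n q 0) ↔
        ∀ ε : ℝ, 0 < ε → ∃ k : ℕ, 1 ≤ k ∧ SmoothTubes n k q₀ (ε / k))) := by
  obtain ⟨d, rfl⟩ : ∃ d, n = d + 1 := ⟨n - 1, by omega⟩
  have hcast : ((d + 1 : ℕ) : ℝ) - 1 = d := by push_cast; ring
  have hd : 2 ≤ d := by omega
  have hdr : (2 : ℝ) ≤ d := by exact_mod_cast hd
  have hd0 : (0 : ℝ) < d := by linarith
  have part1 : ∀ (k : ℕ) (q τ : ℝ), ((d + 1 : ℕ) : ℝ) / (((d + 1 : ℕ) : ℝ) - 1) ≤ q →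
      SmoothTubes (d + 1) k q τ → AllTubes (d + 1) q (((k : ℝ) + 1) * τ) := by
    intro k q τ hq hS
    have hβ : 1 ≤ q - 1 / (d : ℝ) := by
      rw [hcast] at hq
      have h1 : ((d + 1 : ℕ) : ℝ) / (d : ℝ) = 1 + 1 / (d : ℝ) := by
        push_cast; field_simp
      rw [h1] at hq
      linarith
    obtain ⟨C, hC⟩ := hS
    obtain ⟨C', hC'⟩ := Pool.Agent.H222.KW.ck_norm (d := d) (by omega) k (q := q) (τ := τ)
      (C := C) hβ (fun Y hY1 hY2 δ h0 h1 => holds_iff.1 (hC Y hY1 hY2 δ h0 h1))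
    exact ⟨C', fun δ h0 h1 => holds_iff.2 (hC' δ h0 h1)⟩
  refine ⟨part1, fun q₀ hq₀ => ?_⟩
  have hlib := Pool.Agent.Results.MP_850839_an.LossRemoval.result (d + 1) hn q₀ hq₀
  have hmono : ∀ {q τ τ' : ℝ}, τ ≤ τ' → AllTubes (d + 1) q τ →
      ∃ C : ℝ, 0 < C ∧ ∀ δ : ℝ, 0 < δ → δ < 1 → Holds (d + 1) univ q δ (C * δ ^ (-τ')) := by
    intro q τ τ' hττ hA
    obtain ⟨C, hC⟩ := hA
    refine ⟨max C 1, by positivity, fun δ h0 h1 => ?_⟩
    refine holds_iff.2 (Pool.Agent.H222.KW.Hat_mono h0 ?_ (holds_iff.1 (hC δ h0 h1)))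
    have h2 : δ ^ (-τ) ≤ δ ^ (-τ') := Real.rpow_le_rpow_of_exponent_ge h0 h1.le (by linarith)
    calc C * δ ^ (-τ) ≤ max C 1 * δ ^ (-τ) := by gcongr; exact le_max_left _ _
      _ ≤ max C 1 * δ ^ (-τ') := by gcongr
  constructor
  · intro h ε hε
    have h1 := hlib.1 (fun q hq => by
      obtain ⟨C, hC0, hC⟩ := hmono le_rfl (h q hq)
      refine ⟨C, hC0, fun δ h0 h1 => ?_⟩
      have h2 := hC δ h0 h1
      rw [neg_zero, Real.rpow_zero, mul_one] at h2
      exact holds_lib.1 h2) ε hε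
    obtain ⟨C, -, hC⟩ := h1
    refine ⟨1, le_rfl, C, fun Y _ _ δ h0 h1 => ?_⟩
    rw [Nat.cast_one, div_one]
    exact holds_anti (subset_univ _) (holds_lib.2 (hC δ h0 h1))
  · intro h
    have h1 := hlib.2 (fun ε hε => by
      obtain ⟨k, hk, hS⟩ := h (ε / 2) (by positivity)
      have hk' : (1 : ℝ) ≤ k := by exact_mod_cast hk
      have h2 := part1 k q₀ _ hq₀ hS
      have h3 : ((k : ℝ) + 1) * (ε / 2 / k) ≤ ε := by
        have h4 : ((k : ℝ) + 1) * (ε / 2 / k) = (((k : ℝ) + 1) * ε) / (2 * k) := by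
          field_simp
        rw [h4, div_le_iff₀ (by positivity)]
        nlinarith
      obtain ⟨C, hC0, hC⟩ := hmono h3 h2
      exact ⟨C, hC0, fun δ h0 h1 => holds_lib.1 (hC δ h0 h1)⟩)
    intro q hq
    obtain ⟨C, -, hC⟩ := h1 q hq
    refine ⟨C, fun δ h0 h1 => ?_⟩
    rw [neg_zero, Real.rpow_zero, mul_one]
    exact holds_lib.2 (hC δ h0 h1)

end Pool.Agent.Results.MP_850839_an.SmoothCentresLoss
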